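import Pool.Agent.Work.MP_92f640_nt.HN.Defs
import Pool.Agent.Work.MP_92f640_nt.HS.W.Defs

/-! # Explicit weights for `z = x^(2/11)`, level `x^(6/11)`: definitions

`s = log d / log x`, `κ = log 4 / log x`; `kap`, `ex`, `Rough`, `PS` are from HS/W/Defs. Files HS/W/*.lean are the models. -/

namespace Pool.Agent.HN

open Finset Pool.Agent.HS

noncomputable section

/-- the weight of an integer with `j` prime factors and logarithmic size `s` -/
def gN (κ : ℝ) (j : ℕ) (s : ℝ) : ℝ :=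
  if j = 0 then 1
  else if j = 1 then (if s ≤ 5 / 11 ∨ (1 / 2 - κ < s ∧ s ≤ 6 / 11) then -1 else 0)
  else if j = 2 then (if 1 / 2 < s ∧ s ≤ 6 / 11 - 2 * κ then 1 else 0)
  else 0

/-- sum of the weights over the subsets of a list of exponents -/
def FrN (κ : ℝ) : List ℝ → ℕ → ℝ → ℝ
  | [], j, s => gN κ j s
  | a :: l, j, s => FrN κ l j s + FrN κ l (j + 1) (s + a)

open Classical in
/-- the weights -/
def cwN (x d : ℕ) : ℝ :=
  if Rough (zx (9 / 11) x) d then gN (kap x) d.primeFactors.card (ex x d) else 0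

open Classical in
/-- their interpolation -/
def EwN (x d t : ℕ) : ℝ :=
  if Rough (zx (9 / 11) x) d then gN (kap x) (d.primeFactors.card + 1) (ex x (d * t)) else 0

/-- the primes that occur -/
def PN (x : ℕ) : Finset ℕ := PS x (2 / 11) (9 / 11)

/-- small windows around the thresholds -/
def WinN (κ a : ℝ) : Prop := |a - 5 / 11| ≤ 8 * κ ∨ |a - 1 / 2| ≤ 8 * κ ∨ |a - 6 / 11| ≤ 8 * κ

/-- pair sums where neither a pair nor its complement is counted -/
def QN (κ s : ℝ) : Prop := s ≤ 5 / 11 + 2 * κ ∨ 6 / 11 - 4 * κ ≤ s ∨ |s - 1 / 2| ≤ 4 * κ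

open Classical in
def w1N (κ a : ℝ) : ℝ := if WinN κ a then 1 else 0

open Classical in
/-- loss for two primes `a ≤ b` (three prime factors) -/
def w2N (κ a b : ℝ) : ℝ :=
  (if b ≤ 5 / 11 + 2 * κ ∧ 6 / 11 - 4 * κ ≤ a + b then 2 else 0) +
  (if a + b ≤ 1 / 2 + 2 * κ then 1 else 0) +
  (if 5 / 11 - 2 * κ ≤ a + b ∧ a + b ≤ 1 / 2 + 2 * κ then 1 else 0) +
  (if 1 / 2 - 2 * κ ≤ b then 1 else 0) +
  (if 1 / 2 - 2 * κ ≤ b ∧ b ≤ 6 / 11 + 2 * κ then 1 else 0)

open Classical in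
/-- loss for three primes (four prime factors) -/
def w3N (κ a b c : ℝ) : ℝ :=
  (if QN κ (a + b) then 1 else 0) + (if QN κ (a + c) then 1 else 0) + (if QN κ (b + c) then 1 else 0)

/-- loss from two prime factors -/
def L1N (x : ℕ) : ℝ := ∑ p ∈ PN x, w1N (kap x) (ex x p) / p

/-- loss from three prime factors -/
def L2N (x : ℕ) : ℝ := ∑ p ∈ PN x, ∑ p' ∈ (PN x).filter (fun p' => p < p' ∧ ex x p + ex x p' ≤ 9 / 11),
  w2N (kap x) (ex x p) (ex x p') / (p * p')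

/-- loss from four prime factors -/
def L3N (x : ℕ) : ℝ := ∑ p ∈ PN x, ∑ p' ∈ (PN x).filter (fun p' => p < p'),
  ∑ p'' ∈ (PN x).filter (fun p'' => p' < p'' ∧ ex x p + ex x p' + ex x p'' ≤ 9 / 11),
    w3N (kap x) (ex x p) (ex x p') (ex x p'') / (p * p' * p'')

/-- measure of five prime factors -/
def L4N (x : ℕ) : ℝ := ∑ p ∈ PN x, ∑ p' ∈ (PN x).filter (fun p' => p < p'),
  ∑ p'' ∈ (PN x).filter (fun p'' => p' < p''),
    ∑ p₃ ∈ (PN x).filter (fun p₃ => p'' < p₃ ∧ ex x p + ex x p' + ex x p'' + ex x p₃ ≤ 9 / 11),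
      1 / ((p : ℝ) * p' * p'' * p₃)

end

end Pool.Agent.HN
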