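import Pool.Agent.Work.MP_92f640_nt.HN.W.Defs
import Pool.Agent.Work.MP_92f640_nt.HS.W.Mer
import Pool.Agent.Work.MP_92f640_nt.HS.W.Sum14

/-! # Module W.Sum14: two and five prime factors (model HS/W/Sum14)

`L1N`: three windows of width `16 κ → 0`. `L4N`: four increasing primes, all with exponents in `[2/11, 3/11]` (`9/11 - 3·2/11`): `≤ (log(3/2) + δ)⁴/24 ≤ .0012`. -/

namespace Pool.Agent.HN

open Finset Pool.Agent.HS

namespace Sum14

open Pool.Agent.HS.Sum14

lemma nest4 (s : Finset ℕ) (f : ℕ → ℝ) (hf : ∀ i ∈ s, 0 ≤ f i) :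
    ∑ i ∈ s, ∑ j ∈ s.filter (fun j => i < j), ∑ k ∈ s.filter (fun k => j < k),
      ∑ l ∈ s.filter (fun l => k < l), f i * f j * f k * f l ≤ (∑ i ∈ s, f i) ^ 4 / 24 := by
  induction s using Finset.induction_on_min with
  | empty => simp
  | insert a s ha ih =>
    have ha' : a ∉ s := fun h => lt_irrefl a (ha a h)
    have hf' : ∀ i ∈ s, 0 ≤ f i := fun i hi => hf i (mem_insert_of_mem hi)
    have ih' := ih hf'
    have n3 := nest3 s f hf'
    have e1 : (insert a s).filter (fun j => a < j) = s := by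
      ext j
      simp only [mem_filter, mem_insert]
      constructor
      · rintro ⟨rfl | h, h'⟩
        · exact absurd h' (lt_irrefl _)
        · exact h
      · intro h
        exact ⟨Or.inr h, ha j h⟩
    have e2 : ∀ i ∈ s, (insert a s).filter (fun j => i < j) = s.filter (fun j => i < j) := by
      intro i hi
      rw [filter_insert, if_neg (not_lt.2 (ha i hi).le)]
    rw [sum_insert ha', e1, sum_insert ha']
    have e3 : ∑ i ∈ s, ∑ j ∈ (insert a s).filter (fun j => i < j),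
        ∑ k ∈ (insert a s).filter (fun k => j < k), ∑ l ∈ (insert a s).filter (fun l => k < l),
          f i * f j * f k * f l =
        ∑ i ∈ s, ∑ j ∈ s.filter (fun j => i < j), ∑ k ∈ s.filter (fun k => j < k),
          ∑ l ∈ s.filter (fun l => k < l), f i * f j * f k * f l := by
      refine sum_congr rfl fun i hi => ?_
      rw [e2 i hi]
      refine sum_congr rfl fun j hj => ?_
      rw [e2 j (mem_filter.1 hj).1]
      refine sum_congr rfl fun k hk => ?_
      rw [e2 k (mem_filter.1 hk).1]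
    have e4 : ∑ j ∈ s, ∑ k ∈ (insert a s).filter (fun k => j < k),
        ∑ l ∈ (insert a s).filter (fun l => k < l), f a * f j * f k * f l =
        f a * ∑ j ∈ s, ∑ k ∈ s.filter (fun k => j < k), ∑ l ∈ s.filter (fun l => k < l),
          f j * f k * f l := by
      rw [mul_sum]
      refine sum_congr rfl fun j hj => ?_
      rw [e2 j hj, mul_sum]
      refine sum_congr rfl fun k hk => ?_
      rw [e2 k (mem_filter.1 hk).1, mul_sum]
      refine sum_congr rfl fun l _ => ?_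
      ring
    rw [e3, e4]
    have h0 : 0 ≤ f a := hf a (mem_insert_self a s)
    have hS : 0 ≤ ∑ i ∈ s, f i := sum_nonneg hf'
    have h1 := mul_le_mul_of_nonneg_left n3 h0
    set A := ∑ i ∈ s, f i with hA
    have h2 : 0 ≤ f a ^ 2 * A ^ 2 := by positivity
    have h3 : 0 ≤ f a ^ 3 * A := by positivity
    have h4 : 0 ≤ f a ^ 4 := by positivity
    nlinarith

open Classical in
/-- the reciprocal on the primes with exponent at most `3/11` -/
noncomputable def rb (x : ℕ) (p : ℕ) : ℝ := if ex x p ≤ 3 / 11 then 1 / (p : ℝ) else 0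

lemma rb_nonneg (x : ℕ) (p : ℕ) : 0 ≤ rb x p := by
  unfold rb
  split_ifs <;> positivity

lemma rb_sum (x : ℕ) : ∑ p ∈ PN x, rb x p ≤ ∑ p ∈ PS x (2 / 11) (3 / 11), (1 : ℝ) / p := by
  unfold rb
  rw [← sum_filter]
  refine sum_le_sum_of_subset_of_nonneg ?_ (fun _ _ _ => by positivity)
  intro p hp
  obtain ⟨h1, h2⟩ := mem_filter.1 hp
  unfold PN PS at h1
  obtain ⟨h3, h4, h5, h6⟩ := mem_filter.1 h1
  exact mem_filter.2 ⟨h3, h4, h5, h2⟩

lemma L4_nest (x : ℕ) : L4N x ≤ ∑ p ∈ PN x, ∑ p' ∈ (PN x).filter (fun p' => p < p'),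
    ∑ p'' ∈ (PN x).filter (fun p'' => p' < p''), ∑ q ∈ (PN x).filter (fun q => p'' < q),
      rb x p * rb x p' * rb x p'' * rb x q := by
  have hPN : ∀ p ∈ PN x, 2 / 11 ≤ ex x p := by
    intro p hp
    unfold PN PS at hp
    obtain ⟨h3, h4, h5, h6⟩ := mem_filter.1 hp
    exact h5
  unfold L4N
  refine sum_le_sum fun p hp => sum_le_sum fun p' hp' => sum_le_sum fun p'' hp'' => ?_
  have a1 := hPN p hp
  have a2 := hPN p' (mem_filter.1 hp').1
  have a3 := hPN p'' (mem_filter.1 hp'').1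
  calc ∑ p₃ ∈ (PN x).filter (fun p₃ => p'' < p₃ ∧ ex x p + ex x p' + ex x p'' + ex x p₃ ≤ 9 / 11),
        1 / ((p : ℝ) * p' * p'' * p₃)
      = ∑ q ∈ (PN x).filter (fun p₃ => p'' < p₃ ∧ ex x p + ex x p' + ex x p'' + ex x p₃ ≤ 9 / 11),
        rb x p * rb x p' * rb x p'' * rb x q := by
        refine sum_congr rfl fun q hq => ?_
        obtain ⟨hq1, hq2, hq3⟩ := mem_filter.1 hq
        have a4 := hPN q hq1
        unfold rb
        rw [if_pos (by linarith), if_pos (by linarith), if_pos (by linarith),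
          if_pos (by linarith), div_mul_div_comm, div_mul_div_comm, div_mul_div_comm]
        norm_num
    _ ≤ _ := by
        refine sum_le_sum_of_subset_of_nonneg ?_ fun q _ _ => ?_
        · intro q hq
          obtain ⟨hq1, hq2, hq3⟩ := mem_filter.1 hq
          exact mem_filter.2 ⟨hq1, hq2⟩
        · have n1 := rb_nonneg x p
          have n2 := rb_nonneg x p'
          have n3 := rb_nonneg x p''
          have n4 := rb_nonneg x q
          positivity

end Sum14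

open Sum14 Pool.Agent.HS.Sum14

theorem L1N_le : ∃ x₁ : ℕ, ∀ x : ℕ, x₁ ≤ x → L1N x ≤ 1 / 500 := by
  classical
  obtain ⟨x₁, h1⟩ := mer (1 / 5000) (by norm_num)
  obtain ⟨x₂, h2⟩ := kap_small (1 / 100000) (by norm_num)
  refine ⟨max x₁ x₂, fun x hx => ?_⟩
  have hm := h1 x ((le_max_left _ _).trans hx)
  obtain ⟨hk0, hk1⟩ := h2 x ((le_max_right _ _).trans hx)
  set κ := kap x with hκ
  have key : ∀ c : ℝ, 5 / 12 ≤ c → ∑ p ∈ PS x (c - 8 * κ) (c + 8 * κ), (1 : ℝ) / p ≤ 1 / 1500 := by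
    intro c hc
    refine (hm (c - 8 * κ) (c + 8 * κ) (by linarith) (by linarith)).trans ?_
    have h3 := log_ratio (u := c - 8 * κ) (v := c + 8 * κ) (by linarith) (by linarith)
    have h4 : (c + 8 * κ - (c - 8 * κ)) / (c - 8 * κ) ≤ 40 * κ := by
      rw [div_le_iff₀ (by linarith)]
      nlinarith
    linarith
  have h5 : L1N x ≤ ∑ p ∈ PS x (5 / 11 - 8 * κ) (5 / 11 + 8 * κ), (1 : ℝ) / p +
      ∑ p ∈ PS x (1 / 2 - 8 * κ) (1 / 2 + 8 * κ), (1 : ℝ) / p +
      ∑ p ∈ PS x (6 / 11 - 8 * κ) (6 / 11 + 8 * κ), (1 : ℝ) / p := by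
    unfold L1N
    have e1 : ∑ p ∈ PN x, w1N (kap x) (ex x p) / p =
        ∑ p ∈ (PN x).filter (fun p => WinN κ (ex x p)), (1 : ℝ) / p := by
      rw [sum_filter]
      refine sum_congr rfl fun p _ => ?_
      unfold w1N
      rw [← hκ]
      split_ifs <;> simp
    rw [e1]
    have hsub : (PN x).filter (fun p => WinN κ (ex x p)) ⊆
        (PS x (5 / 11 - 8 * κ) (5 / 11 + 8 * κ) ∪ PS x (1 / 2 - 8 * κ) (1 / 2 + 8 * κ)) ∪
          PS x (6 / 11 - 8 * κ) (6 / 11 + 8 * κ) := by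
      intro p hp
      obtain ⟨hp1, hp2⟩ := mem_filter.1 hp
      unfold PN PS at hp1
      obtain ⟨h3, h4, _, _⟩ := mem_filter.1 hp1
      simp only [mem_union]
      rcases hp2 with h | h | h
      · have := abs_le.1 h
        exact Or.inl (Or.inl (mem_filter.2 ⟨h3, h4, by linarith, by linarith⟩))
      · have := abs_le.1 h
        exact Or.inl (Or.inr (mem_filter.2 ⟨h3, h4, by linarith, by linarith⟩))
      · have := abs_le.1 h
        exact Or.inr (mem_filter.2 ⟨h3, h4, by linarith, by linarith⟩)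
    refine (sum_le_sum_of_subset_of_nonneg hsub fun _ _ _ => by positivity).trans ?_
    have u1 := sum_union_inter (s₁ := PS x (5 / 11 - 8 * κ) (5 / 11 + 8 * κ) ∪
      PS x (1 / 2 - 8 * κ) (1 / 2 + 8 * κ)) (s₂ := PS x (6 / 11 - 8 * κ) (6 / 11 + 8 * κ))
      (f := fun p : ℕ => (1 : ℝ) / p)
    have u2 := sum_union_inter (s₁ := PS x (5 / 11 - 8 * κ) (5 / 11 + 8 * κ))
      (s₂ := PS x (1 / 2 - 8 * κ) (1 / 2 + 8 * κ)) (f := fun p : ℕ => (1 : ℝ) / p)
    have n1 : 0 ≤ ∑ p ∈ (PS x (5 / 11 - 8 * κ) (5 / 11 + 8 * κ) ∪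
      PS x (1 / 2 - 8 * κ) (1 / 2 + 8 * κ)) ∩ PS x (6 / 11 - 8 * κ) (6 / 11 + 8 * κ),
      (1 : ℝ) / p := sum_nonneg fun _ _ => by positivity
    have n2 : 0 ≤ ∑ p ∈ PS x (5 / 11 - 8 * κ) (5 / 11 + 8 * κ) ∩
      PS x (1 / 2 - 8 * κ) (1 / 2 + 8 * κ), (1 : ℝ) / p := sum_nonneg fun _ _ => by positivity
    linarith
  have k1 := key (5 / 11) (by norm_num)
  have k2 := key (1 / 2) (by norm_num)
  have k3 := key (6 / 11) (by norm_num)
  linarith

theorem L4N_le : ∃ x₁ : ℕ, ∀ x : ℕ, x₁ ≤ x → L4N x ≤ 1 / 500 := by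
  obtain ⟨x₁, h1⟩ := mer (1 / 10000) (by norm_num)
  refine ⟨x₁, fun x hx => ?_⟩
  have hm := h1 x hx (2 / 11) (3 / 11) (by norm_num) (by norm_num)
  have g3 : Real.log (3 / 2) ≤ 4063 / 10000 := by
    have := log_pade (1 / 2) (by norm_num)
    norm_num at this ⊢
    linarith
  have e : (3 / 11 : ℝ) / (2 / 11) = 3 / 2 := by norm_num
  rw [e] at hm
  have h2 := (rb_sum x).trans hm
  have h3 : 0 ≤ ∑ p ∈ PN x, rb x p := sum_nonneg fun p _ => rb_nonneg x p
  have h4 : ∑ p ∈ PN x, rb x p ≤ 4064 / 10000 := by linarith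
  calc L4N x ≤ (∑ p ∈ PN x, rb x p) ^ 4 / 24 :=
        (L4_nest x).trans (nest4 (PN x) (rb x) fun p _ => rb_nonneg x p)
    _ ≤ (4064 / 10000) ^ 4 / 24 := by gcongr
    _ ≤ 1 / 500 := by norm_num

end Pool.Agent.HN
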