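import Pool.Agent.Work.MP_92f640_nt.HN.W.Defs
import Pool.Agent.Work.MP_92f640_nt.HS.W.Mer
import Pool.Agent.Work.MP_92f640_nt.HS.W.Sum2

/-! # Module W.Sum2: three prime factors (model HS/W/Sum2)

True value `.780` (limit). `w2N` is a sum of five indicators; with `a = ex p < b = ex p'`, `a + b ≤ 9/11`, limits of the five sums:
A (weight 2): `∫_{2/11}^{3/11} log((5/11)/(6/11-a)) da/a + ∫_{3/11}^{4/11} log((5/11)/a) da/a + ∫_{4/11}^{9/22} log((9/11-a)/a) da/a` (= .1424 + .1058 + .0134);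
B1: `∫_{2/11}^{1/4} log((1/2-a)/a) da/a` (.0929); B2: `∫_{2/11}^{5/22} log((1/2-a)/(5/11-a)) da/a + ∫_{5/22}^{1/4} log((1/2-a)/a) da/a` (.0373 + .0088);
C1: `∫_{1/2}^{7/11} log((9/11-b)·11/2) db/b` (.0766); C2: `∫_{1/2}^{6/11} log((9/11-b)·11/2) db/b` (.0424) (here the sum over `p'` is the outer one).
Riemann sums with (24, 20, 10, 14, 6, 5, 16, 6) equal parts in this order, slack `1/2000` in the
limits and the Pade bound `log_pade` give `.821`. -/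

namespace Pool.Agent.HN

open Finset Pool.Agent.HS

namespace Sum2

open Pool.Agent.HS.Sum2

/-! the rectangles -/

noncomputable def loA1 (i : ℕ) : ℝ := 2 / 11 + (i : ℝ) * (1 / 264)
noncomputable def hiA1 (i : ℕ) : ℝ := 2 / 11 + ((i : ℝ) + 1) * (1 / 264)
noncomputable def uA1 (i : ℕ) : ℝ := 6 / 11 - 1 / 2000 - hiA1 i
noncomputable def vA1 (_i : ℕ) : ℝ := 5 / 11 + 1 / 2000

noncomputable def loA2 (i : ℕ) : ℝ := 3 / 11 + (i : ℝ) * (1 / 220)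
noncomputable def hiA2 (i : ℕ) : ℝ := 3 / 11 + ((i : ℝ) + 1) * (1 / 220)
noncomputable def uA2 (i : ℕ) : ℝ := loA2 i
noncomputable def vA2 (_i : ℕ) : ℝ := 5 / 11 + 1 / 2000

noncomputable def loA3 (i : ℕ) : ℝ := 4 / 11 + (i : ℝ) * (1 / 220)
noncomputable def hiA3 (i : ℕ) : ℝ := 4 / 11 + ((i : ℝ) + 1) * (1 / 220)
noncomputable def uA3 (i : ℕ) : ℝ := loA3 i
noncomputable def vA3 (i : ℕ) : ℝ := 9 / 11 - loA3 i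

noncomputable def loB1 (i : ℕ) : ℝ := 2 / 11 + (i : ℝ) * (1511 / 308000)
noncomputable def hiB1 (i : ℕ) : ℝ := 2 / 11 + ((i : ℝ) + 1) * (1511 / 308000)
noncomputable def uB1 (i : ℕ) : ℝ := loB1 i
noncomputable def vB1 (i : ℕ) : ℝ := 1 / 2 + 1 / 2000 - loB1 i

noncomputable def loB2 (i : ℕ) : ℝ := 2 / 11 + (i : ℝ) * (1 / 132)
noncomputable def hiB2 (i : ℕ) : ℝ := 2 / 11 + ((i : ℝ) + 1) * (1 / 132)
noncomputable def uB2 (i : ℕ) : ℝ := 5 / 11 - 1 / 2000 - hiB2 i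
noncomputable def vB2 (i : ℕ) : ℝ := 1 / 2 + 1 / 2000 - loB2 i

noncomputable def loB3 (i : ℕ) : ℝ := 5 / 22 + (i : ℝ) * (511 / 110000)
noncomputable def hiB3 (i : ℕ) : ℝ := 5 / 22 + ((i : ℝ) + 1) * (511 / 110000)
noncomputable def uB3 (i : ℕ) : ℝ := loB3 i
noncomputable def vB3 (i : ℕ) : ℝ := 1 / 2 + 1 / 2000 - loB3 i

noncomputable def uC1 (i : ℕ) : ℝ := 999 / 2000 + (i : ℝ) * (3011 / 352000)
noncomputable def vC1 (i : ℕ) : ℝ := 999 / 2000 + ((i : ℝ) + 1) * (3011 / 352000)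
noncomputable def loC1 (_i : ℕ) : ℝ := 2 / 11
noncomputable def hiC1 (i : ℕ) : ℝ := 9 / 11 - uC1 i

noncomputable def uC2 (i : ℕ) : ℝ := 999 / 2000 + (i : ℝ) * (511 / 66000)
noncomputable def vC2 (i : ℕ) : ℝ := 999 / 2000 + ((i : ℝ) + 1) * (511 / 66000)
noncomputable def loC2 (_i : ℕ) : ℝ := 2 / 11
noncomputable def hiC2 (i : ℕ) : ℝ := 9 / 11 - uC2 i

set_option maxRecDepth 10000 in
lemma numA1 : ∑ i ∈ range 24, (pd (hiA1 i / loA1 i) + 1 / 20000) *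
    (pd (vA1 i / uA1 i) + 1 / 20000) ≤ 366 / 2500 := by
  simp only [sum_range_succ, range_zero, sum_empty, pd, loA1, hiA1, uA1, vA1]
  norm_num

set_option maxRecDepth 10000 in
lemma numA2 : ∑ i ∈ range 20, (pd (hiA2 i / loA2 i) + 1 / 20000) *
    (pd (vA2 i / uA2 i) + 1 / 20000) ≤ 1087 / 10000 := by
  simp only [sum_range_succ, range_zero, sum_empty, pd, loA2, hiA2, uA2, vA2]
  norm_num

set_option maxRecDepth 10000 in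
lemma numA3 : ∑ i ∈ range 10, (pd (hiA3 i / loA3 i) + 1 / 20000) *
    (pd (vA3 i / uA3 i) + 1 / 20000) ≤ 149 / 10000 := by
  simp only [sum_range_succ, range_zero, sum_empty, pd, loA3, hiA3, uA3, vA3]
  norm_num

set_option maxRecDepth 10000 in
lemma numB1 : ∑ i ∈ range 14, (pd (hiB1 i / loB1 i) + 1 / 20000) *
    (pd (vB1 i / uB1 i) + 1 / 20000) ≤ 1002 / 10000 := by
  simp only [sum_range_succ, range_zero, sum_empty, pd, loB1, hiB1, uB1, vB1]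
  norm_num

set_option maxRecDepth 10000 in
lemma numB2 : ∑ i ∈ range 6, (pd (hiB2 i / loB2 i) + 1 / 20000) *
    (pd (vB2 i / uB2 i) + 1 / 20000) ≤ 445 / 10000 := by
  simp only [sum_range_succ, range_zero, sum_empty, pd, loB2, hiB2, uB2, vB2]
  norm_num

set_option maxRecDepth 10000 in
lemma numB3 : ∑ i ∈ range 5, (pd (hiB3 i / loB3 i) + 1 / 20000) *
    (pd (vB3 i / uB3 i) + 1 / 20000) ≤ 109 / 10000 := by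
  simp only [sum_range_succ, range_zero, sum_empty, pd, loB3, hiB3, uB3, vB3]
  norm_num

set_option maxRecDepth 10000 in
lemma numC1 : ∑ i ∈ range 16, (pd (hiC1 i / loC1 i) + 1 / 20000) *
    (pd (vC1 i / uC1 i) + 1 / 20000) ≤ 817 / 10000 := by
  simp only [sum_range_succ, range_zero, sum_empty, pd, loC1, hiC1, uC1, vC1]
  norm_num

set_option maxRecDepth 10000 in
lemma numC2 : ∑ i ∈ range 6, (pd (hiC2 i / loC2 i) + 1 / 20000) *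
    (pd (vC2 i / uC2 i) + 1 / 20000) ≤ 448 / 10000 := by
  simp only [sum_range_succ, range_zero, sum_empty, pd, loC2, hiC2, uC2, vC2]
  norm_num

lemma okA1 : ∀ i < 24, 1 / 6 ≤ loA1 i ∧ loA1 i ≤ hiA1 i ∧ 1 / 6 ≤ uA1 i ∧
    uA1 i ≤ vA1 i := by
  intro i hi
  have h1 : (i : ℝ) ≤ 23 := by exact_mod_cast (by omega : i ≤ 23)
  have h0 : (0 : ℝ) ≤ i := Nat.cast_nonneg i
  unfold uA1 vA1 hiA1 loA1
  refine ⟨?_, ?_, ?_, ?_⟩ <;> linarith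

lemma okA2 : ∀ i < 20, 1 / 6 ≤ loA2 i ∧ loA2 i ≤ hiA2 i ∧ 1 / 6 ≤ uA2 i ∧
    uA2 i ≤ vA2 i := by
  intro i hi
  have h1 : (i : ℝ) ≤ 19 := by exact_mod_cast (by omega : i ≤ 19)
  have h0 : (0 : ℝ) ≤ i := Nat.cast_nonneg i
  unfold uA2 vA2 loA2 hiA2
  refine ⟨?_, ?_, ?_, ?_⟩ <;> linarith

lemma okA3 : ∀ i < 10, 1 / 6 ≤ loA3 i ∧ loA3 i ≤ hiA3 i ∧ 1 / 6 ≤ uA3 i ∧
    uA3 i ≤ vA3 i := by
  intro i hi
  have h1 : (i : ℝ) ≤ 9 := by exact_mod_cast (by omega : i ≤ 9)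
  have h0 : (0 : ℝ) ≤ i := Nat.cast_nonneg i
  unfold uA3 vA3 loA3 hiA3
  refine ⟨?_, ?_, ?_, ?_⟩ <;> linarith

lemma okB1 : ∀ i < 14, 1 / 6 ≤ loB1 i ∧ loB1 i ≤ hiB1 i ∧ 1 / 6 ≤ uB1 i ∧
    uB1 i ≤ vB1 i := by
  intro i hi
  have h1 : (i : ℝ) ≤ 13 := by exact_mod_cast (by omega : i ≤ 13)
  have h0 : (0 : ℝ) ≤ i := Nat.cast_nonneg i
  unfold uB1 vB1 loB1 hiB1
  refine ⟨?_, ?_, ?_, ?_⟩ <;> linarith

lemma okB2 : ∀ i < 6, 1 / 6 ≤ loB2 i ∧ loB2 i ≤ hiB2 i ∧ 1 / 6 ≤ uB2 i ∧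
    uB2 i ≤ vB2 i := by
  intro i hi
  have h1 : (i : ℝ) ≤ 5 := by exact_mod_cast (by omega : i ≤ 5)
  have h0 : (0 : ℝ) ≤ i := Nat.cast_nonneg i
  unfold uB2 vB2 hiB2 loB2
  refine ⟨?_, ?_, ?_, ?_⟩ <;> linarith

lemma okB3 : ∀ i < 5, 1 / 6 ≤ loB3 i ∧ loB3 i ≤ hiB3 i ∧ 1 / 6 ≤ uB3 i ∧
    uB3 i ≤ vB3 i := by
  intro i hi
  have h1 : (i : ℝ) ≤ 4 := by exact_mod_cast (by omega : i ≤ 4)
  have h0 : (0 : ℝ) ≤ i := Nat.cast_nonneg i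
  unfold uB3 vB3 loB3 hiB3
  refine ⟨?_, ?_, ?_, ?_⟩ <;> linarith

lemma okC1 : ∀ i < 16, 1 / 6 ≤ loC1 i ∧ loC1 i ≤ hiC1 i ∧ 1 / 6 ≤ uC1 i ∧
    uC1 i ≤ vC1 i := by
  intro i hi
  have h1 : (i : ℝ) ≤ 15 := by exact_mod_cast (by omega : i ≤ 15)
  have h0 : (0 : ℝ) ≤ i := Nat.cast_nonneg i
  unfold loC1 hiC1 uC1 vC1
  refine ⟨?_, ?_, ?_, ?_⟩ <;> linarith

lemma okC2 : ∀ i < 6, 1 / 6 ≤ loC2 i ∧ loC2 i ≤ hiC2 i ∧ 1 / 6 ≤ uC2 i ∧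
    uC2 i ≤ vC2 i := by
  intro i hi
  have h1 : (i : ℝ) ≤ 5 := by exact_mod_cast (by omega : i ≤ 5)
  have h0 : (0 : ℝ) ≤ i := Nat.cast_nonneg i
  unfold loC2 hiC2 uC2 vC2
  refine ⟨?_, ?_, ?_, ?_⟩ <;> linarith

section cover

variable {κ a b : ℝ} (hκ' : 8 * κ ≤ 1 / 1000) (ha : 2 / 11 ≤ a) (hab : a ≤ b)
  (hs : a + b ≤ 9 / 11)

include hκ' ha in
lemma coverA1 (h0 : a ≤ 3 / 11) (h1 : b ≤ 5 / 11 + 2 * κ) (h2 : 6 / 11 - 4 * κ ≤ a + b) :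
    ∃ i < 24, (loA1 i ≤ a ∧ a ≤ hiA1 i) ∧ uA1 i ≤ b ∧ b ≤ vA1 i := by
  obtain ⟨i, hi, g1, g2⟩ := grid (s := 2 / 11) (h := 1 / 264) (a := a) (by norm_num)
    (n := 24) (by norm_num) ha (by push_cast; linarith)
  refine ⟨i, hi, ⟨g1, g2⟩, ?_, ?_⟩
  · unfold uA1 hiA1
    linarith
  · unfold vA1
    linarith

include hκ' hab in
lemma coverA2 (h0 : 3 / 11 ≤ a) (h00 : a ≤ 4 / 11) (h1 : b ≤ 5 / 11 + 2 * κ) :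
    ∃ i < 20, (loA2 i ≤ a ∧ a ≤ hiA2 i) ∧ uA2 i ≤ b ∧ b ≤ vA2 i := by
  obtain ⟨i, hi, g1, g2⟩ := grid (s := 3 / 11) (h := 1 / 220) (a := a) (by norm_num)
    (n := 20) (by norm_num) h0 (by push_cast; linarith)
  refine ⟨i, hi, ⟨g1, g2⟩, ?_, ?_⟩
  · unfold uA2 loA2
    linarith
  · unfold vA2
    linarith

include hab hs in
lemma coverA3 (h0 : 4 / 11 ≤ a) :
    ∃ i < 10, (loA3 i ≤ a ∧ a ≤ hiA3 i) ∧ uA3 i ≤ b ∧ b ≤ vA3 i := by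
  obtain ⟨i, hi, g1, g2⟩ := grid (s := 4 / 11) (h := 1 / 220) (a := a) (by norm_num)
    (n := 10) (by norm_num) h0 (by push_cast; linarith)
  refine ⟨i, hi, ⟨g1, g2⟩, ?_, ?_⟩
  · unfold uA3 loA3
    linarith
  · unfold vA3 loA3
    linarith

include hκ' ha hab in
lemma coverB1 (h2 : a + b ≤ 1 / 2 + 2 * κ) :
    ∃ i < 14, (loB1 i ≤ a ∧ a ≤ hiB1 i) ∧ uB1 i ≤ b ∧ b ≤ vB1 i := by
  obtain ⟨i, hi, g1, g2⟩ := grid (s := 2 / 11) (h := 1511 / 308000) (a := a) (by norm_num)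
    (n := 14) (by norm_num) ha (by push_cast; linarith)
  refine ⟨i, hi, ⟨g1, g2⟩, ?_, ?_⟩
  · unfold uB1 loB1
    linarith
  · unfold vB1 loB1
    linarith

include hκ' ha in
lemma coverB2 (h0 : a ≤ 5 / 22) (h1 : 5 / 11 - 2 * κ ≤ a + b) (h2 : a + b ≤ 1 / 2 + 2 * κ)
    :
    ∃ i < 6, (loB2 i ≤ a ∧ a ≤ hiB2 i) ∧ uB2 i ≤ b ∧ b ≤ vB2 i := by
  obtain ⟨i, hi, g1, g2⟩ := grid (s := 2 / 11) (h := 1 / 132) (a := a) (by norm_num)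
    (n := 6) (by norm_num) ha (by push_cast; linarith)
  refine ⟨i, hi, ⟨g1, g2⟩, ?_, ?_⟩
  · unfold uB2 hiB2
    linarith
  · unfold vB2 loB2
    linarith

include hκ' hab in
lemma coverB3 (h0 : 5 / 22 ≤ a) (h2 : a + b ≤ 1 / 2 + 2 * κ) :
    ∃ i < 5, (loB3 i ≤ a ∧ a ≤ hiB3 i) ∧ uB3 i ≤ b ∧ b ≤ vB3 i := by
  obtain ⟨i, hi, g1, g2⟩ := grid (s := 5 / 22) (h := 511 / 110000) (a := a) (by norm_num)
    (n := 5) (by norm_num) h0 (by push_cast; linarith)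
  refine ⟨i, hi, ⟨g1, g2⟩, ?_, ?_⟩
  · unfold uB3 loB3
    linarith
  · unfold vB3 loB3
    linarith

include hκ' ha hs in
lemma coverC1 (h1 : 1 / 2 - 2 * κ ≤ b) :
    ∃ i < 16, (loC1 i ≤ a ∧ a ≤ hiC1 i) ∧ uC1 i ≤ b ∧ b ≤ vC1 i := by
  obtain ⟨i, hi, g1, g2⟩ := grid (s := 999 / 2000) (h := 3011 / 352000) (a := b) (by norm_num)
    (n := 16) (by norm_num) (by linarith) (by push_cast; linarith)
  refine ⟨i, hi, ⟨ha, ?_⟩, g1, g2⟩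
  unfold hiC1 uC1
  linarith

include hκ' ha hs in
lemma coverC2 (h1 : 1 / 2 - 2 * κ ≤ b) (h2 : b ≤ 6 / 11 + 2 * κ) :
    ∃ i < 6, (loC2 i ≤ a ∧ a ≤ hiC2 i) ∧ uC2 i ≤ b ∧ b ≤ vC2 i := by
  obtain ⟨i, hi, g1, g2⟩ := grid (s := 999 / 2000) (h := 511 / 66000) (a := b) (by norm_num)
    (n := 6) (by norm_num) (by linarith) (by push_cast; linarith)
  refine ⟨i, hi, ⟨ha, ?_⟩, g1, g2⟩
  unfold hiC2 uC2
  linarith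

end cover

lemma w2N_le (κ a b : ℝ) : w2N κ a b ≤
    2 * ind (a ≤ 3 / 11 ∧ b ≤ 5 / 11 + 2 * κ ∧ 6 / 11 - 4 * κ ≤ a + b) +
    2 * ind (3 / 11 ≤ a ∧ a ≤ 4 / 11 ∧ b ≤ 5 / 11 + 2 * κ) +
    2 * ind (4 / 11 ≤ a) +
    ind (a + b ≤ 1 / 2 + 2 * κ) +
    ind (a ≤ 5 / 22 ∧ 5 / 11 - 2 * κ ≤ a + b ∧ a + b ≤ 1 / 2 + 2 * κ) +
    ind (5 / 22 ≤ a ∧ a + b ≤ 1 / 2 + 2 * κ) +
    ind (1 / 2 - 2 * κ ≤ b) +
    ind (1 / 2 - 2 * κ ≤ b ∧ b ≤ 6 / 11 + 2 * κ) := by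
  classical
  have i0 : ∀ P : Prop, 0 ≤ ind P := fun P => by
    by_cases h : P
    · rw [ind_pos h]; norm_num
    · rw [ind_neg h]
  have e1 : (if b ≤ 5 / 11 + 2 * κ ∧ 6 / 11 - 4 * κ ≤ a + b then (2 : ℝ) else 0) ≤
      2 * ind (a ≤ 3 / 11 ∧ b ≤ 5 / 11 + 2 * κ ∧ 6 / 11 - 4 * κ ≤ a + b) +
      2 * ind (3 / 11 ≤ a ∧ a ≤ 4 / 11 ∧ b ≤ 5 / 11 + 2 * κ) +
      2 * ind (4 / 11 ≤ a) := by
    have j1 := i0 (a ≤ 3 / 11 ∧ b ≤ 5 / 11 + 2 * κ ∧ 6 / 11 - 4 * κ ≤ a + b)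
    have j2 := i0 (3 / 11 ≤ a ∧ a ≤ 4 / 11 ∧ b ≤ 5 / 11 + 2 * κ)
    have j3 := i0 (4 / 11 ≤ a)
    split_ifs with h
    · rcases le_total a (3 / 11) with h1 | h1
      · rw [ind_pos ⟨h1, h⟩]
        linarith
      · rcases le_total a (4 / 11) with h2 | h2
        · rw [ind_pos (P := 3 / 11 ≤ a ∧ a ≤ 4 / 11 ∧ b ≤ 5 / 11 + 2 * κ) ⟨h1, h2, h.1⟩]
          linarith
        · rw [ind_pos h2]
          linarith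
    · linarith
  have e2 : (if 5 / 11 - 2 * κ ≤ a + b ∧ a + b ≤ 1 / 2 + 2 * κ then (1 : ℝ) else 0) ≤
      ind (a ≤ 5 / 22 ∧ 5 / 11 - 2 * κ ≤ a + b ∧ a + b ≤ 1 / 2 + 2 * κ) +
      ind (5 / 22 ≤ a ∧ a + b ≤ 1 / 2 + 2 * κ) := by
    have j1 := i0 (a ≤ 5 / 22 ∧ 5 / 11 - 2 * κ ≤ a + b ∧ a + b ≤ 1 / 2 + 2 * κ)
    have j2 := i0 (5 / 22 ≤ a ∧ a + b ≤ 1 / 2 + 2 * κ)
    split_ifs with h
    · rcases le_total a (5 / 22) with h1 | h1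
      · rw [ind_pos ⟨h1, h⟩]
        linarith
      · rw [ind_pos (P := 5 / 22 ≤ a ∧ a + b ≤ 1 / 2 + 2 * κ) ⟨h1, h.2⟩]
        linarith
    · linarith
  have e3 : (if a + b ≤ 1 / 2 + 2 * κ then (1 : ℝ) else 0) = ind (a + b ≤ 1 / 2 + 2 * κ) := rfl
  have e4 : (if 1 / 2 - 2 * κ ≤ b then (1 : ℝ) else 0) = ind (1 / 2 - 2 * κ ≤ b) := rfl
  have e5 : (if 1 / 2 - 2 * κ ≤ b ∧ b ≤ 6 / 11 + 2 * κ then (1 : ℝ) else 0) =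
    ind (1 / 2 - 2 * κ ≤ b ∧ b ≤ 6 / 11 + 2 * κ) := by
    unfold ind
    split_ifs <;> rfl
  unfold w2N
  rw [← e3, ← e4, ← e5]
  linarith

end Sum2

open Sum2 Pool.Agent.HS.Sum2 in
theorem L2N_le : ∃ x₁ : ℕ, ∀ x : ℕ, x₁ ≤ x → L2N x ≤ 33 / 40 := by
  classical
  obtain ⟨x₁, hx₁⟩ := mer (1 / 20000) (by norm_num)
  obtain ⟨x₂, hx₂⟩ := kap_small
  refine ⟨max (max x₁ x₂) 3, fun x hx => ?_⟩
  have hm := hx₁ x ((le_max_left _ _).trans ((le_max_left _ _).trans hx))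
  obtain ⟨hκ, hκ'⟩ := hx₂ x ((le_max_right _ _).trans ((le_max_left _ _).trans hx))
  have hx3 : 3 ≤ x := (le_max_right _ _).trans hx
  set κ := kap x with hκdef
  obtain ⟨T, hT⟩ : ∃ T, T = (PN x ×ˢ PN x).filter
    (fun q => q.1 < q.2 ∧ ex x q.1 + ex x q.2 ≤ 9 / 11) := ⟨_, rfl⟩
  have hlog : 0 < Real.log x := Real.log_pos (by exact_mod_cast (by omega : 1 < x))
  have hTm : ∀ q ∈ T, ((q.1 ∈ Icc 1 x ∧ q.1.Prime) ∧ (q.2 ∈ Icc 1 x ∧ q.2.Prime)) ∧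
      2 / 11 ≤ ex x q.1 ∧ ex x q.1 ≤ ex x q.2 ∧ ex x q.1 + ex x q.2 ≤ 9 / 11 := by
    intro q hq
    rw [hT, mem_filter, mem_product] at hq
    obtain ⟨⟨h1, h2⟩, h3, h4⟩ := hq
    unfold PN PS at h1 h2
    rw [mem_filter] at h1 h2
    refine ⟨⟨⟨h1.1, h1.2.1⟩, ⟨h2.1, h2.2.1⟩⟩, h1.2.2.1, ?_, h4⟩
    unfold ex
    apply div_le_div_of_nonneg_right _ hlog.le
    exact Real.log_le_log (by exact_mod_cast h1.2.1.pos) (by exact_mod_cast h3.le)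
  have h1 : L2N x = ∑ q ∈ T, w2N κ (ex x q.1) (ex x q.2) * (1 / ((q.1 : ℝ) * q.2)) := by
    unfold L2N
    rw [hT, sum_filter, sum_product]
    refine sum_congr rfl fun p _ => ?_
    rw [sum_filter]
    refine sum_congr rfl fun p' _ => ?_
    split_ifs
    · rw [mul_one_div]
    · rfl
  have h2 : ∀ (P : ℝ → ℝ → Prop) (n : ℕ) (lo hi u v : ℕ → ℝ)
      (_ : ∀ i < n, 1 / 6 ≤ lo i ∧ lo i ≤ hi i ∧ 1 / 6 ≤ u i ∧ u i ≤ v i)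
      (_ : ∀ a b : ℝ, 2 / 11 ≤ a → a ≤ b → a + b ≤ 9 / 11 → P a b →
        ∃ i < n, (lo i ≤ a ∧ a ≤ hi i) ∧ u i ≤ b ∧ b ≤ v i) (R : ℝ)
      (_ : ∑ i ∈ range n, (pd (hi i / lo i) + 1 / 20000) * (pd (v i / u i) + 1 / 20000) ≤ R),
      ∑ q ∈ T, ind (P (ex x q.1) (ex x q.2)) * (1 / ((q.1 : ℝ) * q.2)) ≤ R := by
    intro P n lo hi u v ok cov R hR
    have e1 : ∑ q ∈ T, ind (P (ex x q.1) (ex x q.2)) * (1 / ((q.1 : ℝ) * q.2)) =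
        ∑ q ∈ T.filter (fun q => P (ex x q.1) (ex x q.2)), (1 : ℝ) / ((q.1 : ℝ) * q.2) := by
      rw [sum_filter]
      refine sum_congr rfl fun q _ => ?_
      split_ifs with h
      · rw [ind_pos h, one_mul]
      · rw [ind_neg h, zero_mul]
    rw [e1]
    refine (region hm n lo hi u v ok _ ?_).trans ((sum_pd (by norm_num) n lo hi u v ok).trans hR)
    intro q hq
    rw [mem_filter] at hq
    obtain ⟨⟨a1, a2⟩, a3, a4, a5⟩ := hTm q hq.1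
    exact ⟨a1, a2, cov _ _ a3 a4 a5 hq.2⟩
  have r1 := h2 (fun a b => a ≤ 3 / 11 ∧ b ≤ 5 / 11 + 2 * κ ∧ 6 / 11 - 4 * κ ≤ a + b)
    24 loA1 hiA1 uA1 vA1 okA1
    (fun a b g1 _ _ g4 => coverA1 hκ' g1 g4.1 g4.2.1 g4.2.2) _ numA1
  have r2 := h2 (fun a b => 3 / 11 ≤ a ∧ a ≤ 4 / 11 ∧ b ≤ 5 / 11 + 2 * κ)
    20 loA2 hiA2 uA2 vA2 okA2
    (fun a b _ g2 _ g4 => coverA2 hκ' g2 g4.1 g4.2.1 g4.2.2) _ numA2
  have r3 := h2 (fun a _ => 4 / 11 ≤ a) 10 loA3 hiA3 uA3 vA3 okA3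
    (fun a b _ g2 g3 g4 => coverA3 g2 g3 g4) _ numA3
  have r4 := h2 (fun a b => a + b ≤ 1 / 2 + 2 * κ) 14 loB1 hiB1 uB1 vB1 okB1
    (fun a b g1 g2 _ g4 => coverB1 hκ' g1 g2 g4) _ numB1
  have r5 := h2 (fun a b => a ≤ 5 / 22 ∧ 5 / 11 - 2 * κ ≤ a + b ∧ a + b ≤ 1 / 2 + 2 * κ)
    6 loB2 hiB2 uB2 vB2 okB2
    (fun a b g1 _ _ g4 => coverB2 hκ' g1 g4.1 g4.2.1 g4.2.2) _ numB2
  have r6 := h2 (fun a b => 5 / 22 ≤ a ∧ a + b ≤ 1 / 2 + 2 * κ) 5 loB3 hiB3 uB3 vB3 okB3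
    (fun a b _ g2 _ g4 => coverB3 hκ' g2 g4.1 g4.2) _ numB3
  have r7 := h2 (fun _ b => 1 / 2 - 2 * κ ≤ b) 16 loC1 hiC1 uC1 vC1 okC1
    (fun a b g1 _ g3 g4 => coverC1 hκ' g1 g3 g4) _ numC1
  have r8 := h2 (fun _ b => 1 / 2 - 2 * κ ≤ b ∧ b ≤ 6 / 11 + 2 * κ) 6 loC2 hiC2 uC2 vC2 okC2
    (fun a b g1 _ g3 g4 => coverC2 hκ' g1 g3 g4.1 g4.2) _ numC2
  rw [h1]
  have h3 : ∑ q ∈ T, w2N κ (ex x q.1) (ex x q.2) * (1 / ((q.1 : ℝ) * q.2)) ≤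
      2 * ∑ q ∈ T, ind (ex x q.1 ≤ 3 / 11 ∧ ex x q.2 ≤ 5 / 11 + 2 * κ ∧
        6 / 11 - 4 * κ ≤ ex x q.1 + ex x q.2) * (1 / ((q.1 : ℝ) * q.2)) +
      2 * ∑ q ∈ T, ind (3 / 11 ≤ ex x q.1 ∧ ex x q.1 ≤ 4 / 11 ∧ ex x q.2 ≤ 5 / 11 + 2 * κ) *
        (1 / ((q.1 : ℝ) * q.2)) +
      2 * ∑ q ∈ T, ind (4 / 11 ≤ ex x q.1) * (1 / ((q.1 : ℝ) * q.2)) +
      ∑ q ∈ T, ind (ex x q.1 + ex x q.2 ≤ 1 / 2 + 2 * κ) * (1 / ((q.1 : ℝ) * q.2)) +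
      ∑ q ∈ T, ind (ex x q.1 ≤ 5 / 22 ∧ 5 / 11 - 2 * κ ≤ ex x q.1 + ex x q.2 ∧
        ex x q.1 + ex x q.2 ≤ 1 / 2 + 2 * κ) * (1 / ((q.1 : ℝ) * q.2)) +
      ∑ q ∈ T, ind (5 / 22 ≤ ex x q.1 ∧ ex x q.1 + ex x q.2 ≤ 1 / 2 + 2 * κ) *
        (1 / ((q.1 : ℝ) * q.2)) +
      ∑ q ∈ T, ind (1 / 2 - 2 * κ ≤ ex x q.2) * (1 / ((q.1 : ℝ) * q.2)) +
      ∑ q ∈ T, ind (1 / 2 - 2 * κ ≤ ex x q.2 ∧ ex x q.2 ≤ 6 / 11 + 2 * κ) *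
        (1 / ((q.1 : ℝ) * q.2)) := by
    rw [mul_sum, mul_sum, mul_sum, ← sum_add_distrib, ← sum_add_distrib, ← sum_add_distrib,
      ← sum_add_distrib, ← sum_add_distrib, ← sum_add_distrib, ← sum_add_distrib]
    refine sum_le_sum fun q _ => ?_
    have g := mul_le_mul_of_nonneg_right (w2N_le κ (ex x q.1) (ex x q.2))
      (by positivity : (0 : ℝ) ≤ 1 / ((q.1 : ℝ) * q.2))
    refine g.trans (le_of_eq ?_)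
    ring
  linarith

end Pool.Agent.HN
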