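import Pool.Agent.Work.MP_92f640_nt.HN.W.Defs
import Pool.Agent.Work.MP_92f640_nt.HS.W.SumL3
import Pool.Agent.Work.MP_92f640_nt.HS.W.Sum2

/-! # Module W.Sum3: four prime factors (model HS/W/SumL3)

True value `.063`. A sorted triple with a marked pair of sum `σ` (`QN κ σ`), third exponent in `[2/11, 9/11 - σ]`: `L3N ≤ ∑_{p < p', QN(σ)} 1/(p p') · (sum over the third)`.
`σ ≤ 5/11 + 2κ`: third `≤ log(5/2) + δ`, pairs: 16 rectangles, `.0497`. `σ ≥ 6/11 - 4κ`: third `≤ log(3/2) + δ`, `σ ≤ 7/11`, pairs: 36 rectangles, `.1307`. `|σ - 1/2| ≤ 4κ`: `→ 0`. Total `.0986`. -/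

namespace Pool.Agent.HN

open Finset Pool.Agent.HS

namespace SN3

open Classical

theorem mem_PN {x p : ℕ} :
    p ∈ PN x ↔ (1 ≤ p ∧ p ≤ x) ∧ p.Prime ∧ 2 / 11 ≤ ex x p ∧ ex x p ≤ 9 / 11 := by
  rw [PN]
  exact SL3.mem_PS

theorem PN_sub (x : ℕ) : PN x ⊆ PP x := by
  intro p hp
  rw [mem_PN] at hp
  rw [PP, SL3.mem_PS]
  exact ⟨hp.1, hp.2.1, by linarith [hp.2.2.1], by linarith [hp.2.2.2]⟩

/-- the third prime -/
theorem third_le {x : ℕ} {δ : ℝ} (hm : SL3.MerB x δ) (hδ : 0 ≤ δ) {s R : ℝ} (hR : 1 ≤ R)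
    (hs : 11 / 2 * (9 / 11 - s) ≤ R) :
    ∑ r ∈ PN x, (if ex x r ≤ 9 / 11 - s then (1 : ℝ) / r else 0) ≤ Real.log R + δ := by
  rw [← sum_filter]
  apply SL3.inner_le hm hδ hR (u := 2 / 11) (v := 9 / 11 - s) (by norm_num)
  · intro p hp
    rw [mem_filter, mem_PN] at hp
    rw [SL3.mem_PS]
    exact ⟨hp.1.1, hp.1.2.1, hp.1.2.2.1, hp.2⟩
  · linarith

theorem third_zero {x : ℕ} {s : ℝ} (hs : 7 / 11 < s) :
    ∑ r ∈ PN x, (if ex x r ≤ 9 / 11 - s then (1 : ℝ) / r else 0) = 0 := by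
  refine sum_eq_zero fun r hr => ?_
  rw [mem_PN] at hr
  rw [if_neg]
  intro h
  linarith [hr.2.2.1]

/-- indicator of a sorted triple -/
noncomputable def tt (x p q r : ℕ) : ℝ :=
  if p < q ∧ q < r ∧ ex x p + ex x q + ex x r ≤ 9 / 11 then 1 else 0

noncomputable def qq (κ s : ℝ) : ℝ := if QN κ s then 1 else 0

theorem qq_nonneg (κ s : ℝ) : 0 ≤ qq κ s := by
  unfold qq
  split_ifs <;> norm_num

theorem tt_sum_le (x q q' r : ℕ) : tt x q q' r + tt x q r q' + tt x r q q' ≤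
    if q < q' then (if ex x r ≤ 9 / 11 - (ex x q + ex x q') then 1 else 0) else 0 := by
  unfold tt
  by_cases h1 : q < q'
  · rw [if_pos h1]
    by_cases h2 : ex x r ≤ 9 / 11 - (ex x q + ex x q')
    · rw [if_pos h2]
      rcases lt_trichotomy q' r with h3 | h3 | h3
      · rw [if_pos ⟨h1, h3, by linarith⟩, if_neg (by rintro ⟨_, h4, _⟩; omega),
          if_neg (by rintro ⟨h4, _, _⟩; omega)]
        norm_num
      · rw [if_neg (by rintro ⟨_, h4, _⟩; omega), if_neg (by rintro ⟨_, h4, _⟩; omega),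
          if_neg (by rintro ⟨h4, _, _⟩; omega)]
        norm_num
      · rw [if_neg (by rintro ⟨_, h4, _⟩; omega)]
        rcases lt_trichotomy q r with h5 | h5 | h5
        · rw [if_pos ⟨h5, h3, by linarith⟩, if_neg (by rintro ⟨h4, _, _⟩; omega)]
          norm_num
        · rw [if_neg (by rintro ⟨h4, _, _⟩; omega), if_neg (by rintro ⟨h4, _, _⟩; omega)]
          norm_num
        · rw [if_neg (by rintro ⟨h4, _, _⟩; omega), if_pos ⟨h5, h1, by linarith⟩]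
          norm_num
    · rw [if_neg h2, if_neg (by rintro ⟨_, _, h4⟩; linarith), if_neg (by rintro ⟨_, _, h4⟩; linarith),
        if_neg (by rintro ⟨_, _, h4⟩; linarith)]
      norm_num
  · rw [if_neg h1, if_neg (by rintro ⟨h4, _, _⟩; omega), if_neg (by rintro ⟨h4, h5, _⟩; omega),
      if_neg (by rintro ⟨_, h4, _⟩; omega)]
    norm_num

theorem qq_split {κ s gA gB gC G : ℝ} (hA : 0 ≤ gA) (hB : 0 ≤ gB) (hC : 0 ≤ gC)
    (h1 : s ≤ 5 / 11 + 2 * κ → G ≤ gA)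
    (h2 : 6 / 11 - 4 * κ ≤ s → s ≤ 7 / 11 → G ≤ gB)
    (h3 : 1 / 2 - 4 * κ ≤ s → s ≤ 1 / 2 + 4 * κ → G ≤ gC) (h4 : 7 / 11 < s → G ≤ 0) :
    qq κ s * G ≤ (if s ≤ 5 / 11 + 2 * κ then gA else 0) +
      (if 6 / 11 - 4 * κ ≤ s ∧ s ≤ 7 / 11 then gB else 0) +
      (if 1 / 2 - 4 * κ ≤ s ∧ s ≤ 1 / 2 + 4 * κ then gC else 0) := by
  have i1 : 0 ≤ (if s ≤ 5 / 11 + 2 * κ then gA else 0) := by
    split_ifs <;> linarith
  have i2 : 0 ≤ (if 6 / 11 - 4 * κ ≤ s ∧ s ≤ 7 / 11 then gB else 0) := by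
    split_ifs <;> linarith
  have i3 : 0 ≤ (if 1 / 2 - 4 * κ ≤ s ∧ s ≤ 1 / 2 + 4 * κ then gC else 0) := by
    split_ifs <;> linarith
  unfold qq
  by_cases h : QN κ s
  · rw [if_pos h, one_mul]
    unfold QN at h
    rcases h with h | h | h
    · have := h1 h
      rw [if_pos h] at i1 ⊢
      linarith
    · by_cases h5 : s ≤ 7 / 11
      · have := h2 h h5
        have hB' : 6 / 11 - 4 * κ ≤ s ∧ s ≤ 7 / 11 := ⟨h, h5⟩
        rw [if_pos hB'] at i2 ⊢
        linarith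
      · push Not at h5
        have := h4 h5
        linarith
    · rw [abs_le] at h
      have h' : 1 / 2 - 4 * κ ≤ s ∧ s ≤ 1 / 2 + 4 * κ := ⟨by linarith [h.1], by linarith [h.2]⟩
      have := h3 h'.1 h'.2
      rw [if_pos h'] at i3 ⊢
      linarith
  · rw [if_neg h, zero_mul]
    linarith

/-! the rectangles -/

noncomputable def loA (i : ℕ) : ℝ := 2 / 11 + (i : ℝ) * (1 / 352 + 1 / 160000)
noncomputable def hiA (i : ℕ) : ℝ := 2 / 11 + ((i : ℝ) + 1) * (1 / 352 + 1 / 160000)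
noncomputable def uA (i : ℕ) : ℝ := loA i
noncomputable def vA (i : ℕ) : ℝ := 5 / 11 + 1 / 10000 - loA i

noncomputable def loB (i : ℕ) : ℝ := 2 / 11 + (i : ℝ) * (1 / 264)
noncomputable def hiB (i : ℕ) : ℝ := 2 / 11 + ((i : ℝ) + 1) * (1 / 264)
noncomputable def uB (i : ℕ) : ℝ := if i < 24 then 6 / 11 - 1 / 10000 - hiB i else loB i
noncomputable def vB (i : ℕ) : ℝ := 7 / 11 - loB i

lemma numA : ∑ i ∈ range 16, (Sum2.pd (hiA i / loA i) + 1 / 100000) *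
    (Sum2.pd (vA i / uA i) + 1 / 100000) ≤ 497 / 10000 := by
  simp only [sum_range_succ, range_zero, sum_empty, Sum2.pd, loA, hiA, uA, vA]
  norm_num

set_option maxRecDepth 10000 in
lemma numB : ∑ i ∈ range 36, (Sum2.pd (hiB i / loB i) + 1 / 100000) *
    (Sum2.pd (vB i / uB i) + 1 / 100000) ≤ 1308 / 10000 := by
  simp only [sum_range_succ, range_zero, sum_empty, Sum2.pd, loB, hiB, uB, vB]
  norm_num

lemma okA : ∀ i < 16, 1 / 6 ≤ loA i ∧ loA i ≤ hiA i ∧ 1 / 6 ≤ uA i ∧ uA i ≤ vA i := by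
  intro i hi
  have h1 : (i : ℝ) ≤ 15 := by exact_mod_cast (by omega : i ≤ 15)
  have h0 : (0 : ℝ) ≤ i := Nat.cast_nonneg i
  unfold vA uA hiA loA
  refine ⟨?_, ?_, ?_, ?_⟩ <;> linarith

lemma okB : ∀ i < 36, 1 / 6 ≤ loB i ∧ loB i ≤ hiB i ∧ 1 / 6 ≤ uB i ∧ uB i ≤ vB i := by
  intro i hi
  have h1 : (i : ℝ) ≤ 35 := by exact_mod_cast (by omega : i ≤ 35)
  have h0 : (0 : ℝ) ≤ i := Nat.cast_nonneg i
  unfold uB vB hiB loB
  split_ifs with h
  · have h2 : (i : ℝ) ≤ 23 := by exact_mod_cast (by omega : i ≤ 23)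
    refine ⟨?_, ?_, ?_, ?_⟩ <;> linarith
  · refine ⟨?_, ?_, ?_, ?_⟩ <;> linarith

lemma coverA {κ a b : ℝ} (hκ : κ ≤ 1 / 10 ^ 8) (ha : 2 / 11 ≤ a) (hab : a ≤ b)
    (h1 : a + b ≤ 5 / 11 + 2 * κ) : ∃ i < 16, (loA i ≤ a ∧ a ≤ hiA i) ∧ uA i ≤ b ∧ b ≤ vA i := by
  obtain ⟨i, hi, g1, g2⟩ := Sum2.grid (s := 2 / 11) (h := 1 / 352 + 1 / 160000) (a := a)
    (by norm_num) (n := 16) (by norm_num) ha (by push_cast; linarith)
  refine ⟨i, hi, ⟨g1, g2⟩, ?_, ?_⟩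
  · unfold uA loA
    linarith
  · unfold vA loA
    linarith

lemma coverB {κ a b : ℝ} (hκ : κ ≤ 1 / 10 ^ 8) (ha : 2 / 11 ≤ a) (hab : a ≤ b)
    (h1 : 6 / 11 - 4 * κ ≤ a + b) (h2 : a + b ≤ 7 / 11) :
    ∃ i < 36, (loB i ≤ a ∧ a ≤ hiB i) ∧ uB i ≤ b ∧ b ≤ vB i := by
  obtain ⟨i, hi, g1, g2⟩ := Sum2.grid (s := 2 / 11) (h := 1 / 264) (a := a)
    (by norm_num) (n := 36) (by norm_num) ha (by push_cast; linarith)
  refine ⟨i, hi, ⟨g1, g2⟩, ?_, ?_⟩
  · unfold uB hiB loB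
    split_ifs
    · linarith
    · linarith
  · unfold vB loB
    linarith

/-- a region of pairs covered by rectangles -/
lemma pairs_le {x : ℕ} (hx : 1 < x) (hm : SL3.MerB x (1 / 100000)) (P : ℝ → ℝ → Prop) (n : ℕ)
    (lo hi u v : ℕ → ℝ) (ok : ∀ i < n, 1 / 6 ≤ lo i ∧ lo i ≤ hi i ∧ 1 / 6 ≤ u i ∧ u i ≤ v i)
    (cov : ∀ a b : ℝ, 2 / 11 ≤ a → a ≤ b → P a b →
      ∃ i < n, (lo i ≤ a ∧ a ≤ hi i) ∧ u i ≤ b ∧ b ≤ v i) (R : ℝ)
    (hR : ∑ i ∈ range n, (Sum2.pd (hi i / lo i) + 1 / 100000) *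
      (Sum2.pd (v i / u i) + 1 / 100000) ≤ R) :
    ∑ q ∈ PN x, ∑ q' ∈ PN x, (if q < q' ∧ P (ex x q) (ex x q') then (1 : ℝ) / (q * q') else 0) ≤
      R := by
  rw [← sum_product', ← sum_filter]
  refine (Sum2.region hm n lo hi u v ok _ ?_).trans
    ((Sum2.sum_pd (by norm_num) n lo hi u v ok).trans hR)
  intro q hq
  rw [mem_filter, mem_product, mem_PN, mem_PN] at hq
  obtain ⟨⟨⟨a1, a2, a3, -⟩, b1, b2, b3, -⟩, c1, c2⟩ := hq
  refine ⟨⟨mem_Icc.2 a1, a2⟩, ⟨mem_Icc.2 b1, b2⟩, cov _ _ a3 (SL3.ex_mono hx a1.1 c1.le) c2⟩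

/-- the marked pairs -/
theorem S5_le {x : ℕ} {κ : ℝ} (hx : 1 < x) (hm : SL3.MerB x (1 / 100000))
    (hm8 : SL3.MerB x (1 / 10 ^ 8))
    (hκ : 0 ≤ κ) (hκ1 : κ ≤ 1 / 10 ^ 8) : ∑ p ∈ PN x, ∑ p' ∈ PN x, ∑ p'' ∈ PN x, tt x p p' p'' *
      (qq κ (ex x p + ex x p') + qq κ (ex x p + ex x p'') + qq κ (ex x p' + ex x p'')) *
      (1 / ((p : ℝ) * p' * p'')) ≤ 99 / 1000 := by
  have e1 : ∑ p ∈ PN x, ∑ p' ∈ PN x, ∑ p'' ∈ PN x, tt x p p' p'' *
      (qq κ (ex x p + ex x p') + qq κ (ex x p + ex x p'') + qq κ (ex x p' + ex x p'')) *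
      (1 / ((p : ℝ) * p' * p'')) =
      ∑ q ∈ PN x, ∑ q' ∈ PN x, ∑ r ∈ PN x, (tt x q q' r + tt x q r q' + tt x r q q') *
        (qq κ (ex x q + ex x q') * (1 / ((q : ℝ) * q')) * (1 / r)) := by
    have a1 : ∑ p ∈ PN x, ∑ p' ∈ PN x, ∑ p'' ∈ PN x, tt x p p' p'' *
      (qq κ (ex x p + ex x p') + qq κ (ex x p + ex x p'') + qq κ (ex x p' + ex x p'')) *
      (1 / ((p : ℝ) * p' * p'')) =
      ∑ p ∈ PN x, ∑ p' ∈ PN x, ∑ p'' ∈ PN x, tt x p p' p'' *
        (qq κ (ex x p + ex x p') * (1 / ((p : ℝ) * p')) * (1 / p'')) +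
      ∑ p ∈ PN x, ∑ p' ∈ PN x, ∑ p'' ∈ PN x, tt x p p' p'' *
        (qq κ (ex x p + ex x p'') * (1 / ((p : ℝ) * p'')) * (1 / p')) +
      ∑ p ∈ PN x, ∑ p' ∈ PN x, ∑ p'' ∈ PN x, tt x p p' p'' *
        (qq κ (ex x p' + ex x p'') * (1 / ((p' : ℝ) * p'')) * (1 / p)) := by
      rw [← sum_add_distrib, ← sum_add_distrib]
      refine sum_congr rfl fun p _ => ?_
      rw [← sum_add_distrib, ← sum_add_distrib]
      refine sum_congr rfl fun p' _ => ?_
      rw [← sum_add_distrib, ← sum_add_distrib]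
      refine sum_congr rfl fun p'' _ => ?_
      simp only [one_div, mul_inv]
      ring
    have a2 : ∑ p ∈ PN x, ∑ p' ∈ PN x, ∑ p'' ∈ PN x, tt x p p' p'' *
        (qq κ (ex x p + ex x p'') * (1 / ((p : ℝ) * p'')) * (1 / p')) =
        ∑ q ∈ PN x, ∑ q' ∈ PN x, ∑ r ∈ PN x, tt x q r q' *
        (qq κ (ex x q + ex x q') * (1 / ((q : ℝ) * q')) * (1 / r)) :=
      sum_congr rfl fun p _ => sum_comm
    have a3 : ∑ p ∈ PN x, ∑ p' ∈ PN x, ∑ p'' ∈ PN x, tt x p p' p'' *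
        (qq κ (ex x p' + ex x p'') * (1 / ((p' : ℝ) * p'')) * (1 / p)) =
        ∑ q ∈ PN x, ∑ q' ∈ PN x, ∑ r ∈ PN x, tt x r q q' *
        (qq κ (ex x q + ex x q') * (1 / ((q : ℝ) * q')) * (1 / r)) := by
      rw [sum_comm]
      exact sum_congr rfl fun p _ => sum_comm
    rw [a1, a2, a3, ← sum_add_distrib, ← sum_add_distrib]
    refine sum_congr rfl fun p _ => ?_
    rw [← sum_add_distrib, ← sum_add_distrib]
    refine sum_congr rfl fun p' _ => ?_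
    rw [← sum_add_distrib, ← sum_add_distrib]
    refine sum_congr rfl fun p'' _ => ?_
    ring
  rw [e1]
  have hgA : Real.log (5 / 2) ≤ 9164 / 10000 := by
    have h1 := Sum2.log_le_pd (r := 5 / 4) (by norm_num)
    have h2 := Real.log_two_lt_d9
    have e : (5 / 2 : ℝ) = 5 / 4 * 2 := by norm_num
    rw [e, Real.log_mul (by norm_num) (by norm_num)]
    unfold Sum2.pd at h1
    norm_num at h1 h2 ⊢
    linarith
  have hgB := Sum2.log_le_pd (r := 3 / 2 + 22 / 10 ^ 8) (by norm_num)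
  have hgC := Sum2.log_le_pd (r := 2) (by norm_num)
  unfold Sum2.pd at hgB hgC
  norm_num at hgB hgC
  have h1 : ∀ q ∈ PN x, ∀ q' ∈ PN x, ∑ r ∈ PN x, (tt x q q' r + tt x q r q' + tt x r q q') *
        (qq κ (ex x q + ex x q') * (1 / ((q : ℝ) * q')) * (1 / r)) ≤
      9165 / 10000 * (if q < q' ∧ ex x q + ex x q' ≤ 5 / 11 + 2 * κ then
        (1 : ℝ) / (q * q') else 0) +
      4064 / 10000 * (if q < q' ∧ (6 / 11 - 4 * κ ≤ ex x q + ex x q' ∧
        ex x q + ex x q' ≤ 7 / 11) then (1 : ℝ) / (q * q') else 0) +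
      1 * (if q < q' ∧ 1 / 2 - 4 * κ ≤ ex x q + ex x q' ∧
        ex x q + ex x q' ≤ 1 / 2 + 4 * κ then (1 : ℝ) / (q * q') else 0) := by
    intro q hq q' hq'
    rw [mem_PN] at hq hq'
    set s : ℝ := ex x q + ex x q' with hs
    have hs4 : 4 / 11 ≤ s := by linarith [hq.2.2.1, hq'.2.2.1]
    set N : ℝ := (1 : ℝ) / (q * q') with hN
    have hN0 : 0 ≤ N := by rw [hN]; positivity
    set G : ℝ := ∑ r ∈ PN x, (if ex x r ≤ 9 / 11 - s then (1 : ℝ) / r else 0) with hG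
    have hG0 : 0 ≤ G := by
      rw [hG]
      refine sum_nonneg fun r _ => ?_
      split_ifs <;> positivity
    have h2 : ∑ r ∈ PN x, (tt x q q' r + tt x q r q' + tt x r q q') *
        (qq κ s * N * (1 / r)) ≤ if q < q' then (qq κ s * G) * N else 0 := by
      have h3 : ∀ r ∈ PN x, (tt x q q' r + tt x q r q' + tt x r q q') *
        (qq κ s * N * (1 / r)) ≤ if q < q' then qq κ s * N *
          (if ex x r ≤ 9 / 11 - s then (1 : ℝ) / r else 0) else 0 := by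
        intro r hr
        have h4 := tt_sum_le x q q' r
        have h5 : 0 ≤ qq κ s * N * (1 / (r : ℝ)) := by
          have := qq_nonneg κ s
          positivity
        refine (mul_le_mul_of_nonneg_right h4 h5).trans (le_of_eq ?_)
        rw [← hs]
        split_ifs <;> ring
      refine (sum_le_sum h3).trans (le_of_eq ?_)
      split_ifs
      · rw [← mul_sum]
        ring
      · simp
    refine h2.trans ?_
    by_cases hqq : q < q'
    · rw [if_pos hqq]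
      have h3 := qq_split (κ := κ) (s := s) (G := G) (gA := 9165 / 10000) (gB := 4064 / 10000)
        (gC := 1)
        (by norm_num) (by norm_num) (by norm_num) (by
          intro _
          have h5 := third_le hm8 (by norm_num) (s := s) (R := 5 / 2) (by norm_num) (by linarith)
          refine h5.trans ?_
          norm_num at hgA ⊢
          linarith) (by
          intro h4 _
          have h5 := third_le hm8 (by norm_num) (s := s) (R := 3 / 2 + 22 / 10 ^ 8) (by norm_num)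
            (by norm_num; norm_num at hκ1; linarith)
          refine h5.trans ?_
          norm_num
          linarith) (by
          intro h4 _
          have h5 := third_le hm8 (by norm_num) (s := s) (R := 2) (by norm_num)
            (by norm_num at hκ1; linarith)
          refine h5.trans ?_
          norm_num
          linarith) (by
          intro h4
          rw [hG, third_zero h4])
      refine (mul_le_mul_of_nonneg_right h3 hN0).trans (le_of_eq ?_)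
      simp only [hqq, true_and]
      split_ifs <;> ring
    · rw [if_neg hqq]
      simp only [hqq, false_and, if_false]
      norm_num
  refine (sum_le_sum fun q hq => sum_le_sum fun q' hq' => h1 q hq q' hq').trans ?_
  have hA := pairs_le hx hm (fun a b => a + b ≤ 5 / 11 + 2 * κ) 16 loA hiA uA vA okA
    (fun a b g1 g2 g3 => coverA hκ1 g1 g2 g3) _ numA
  have hB := pairs_le hx hm (fun a b => 6 / 11 - 4 * κ ≤ a + b ∧ a + b ≤ 7 / 11) 36 loB hiB uB vB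
    okB (fun a b g1 g2 g3 => coverB hκ1 g1 g2 g3.1 g3.2) _ numB
  have hC : ∑ q ∈ PN x, ∑ q' ∈ PN x, (if q < q' ∧ 1 / 2 - 4 * κ ≤ ex x q + ex x q' ∧
        ex x q + ex x q' ≤ 1 / 2 + 4 * κ then (1 : ℝ) / (q * q') else 0) ≤ 1 / 10 ^ 5 := by
    have hC' := SL3.SC_le hm8 (by norm_num) (le_refl _) hκ hκ1
    unfold SL3.SP at hC'
    refine le_trans ?_ hC'
    refine (sum_le_sum_of_subset_of_nonneg (PN_sub x) fun q _ _ => sum_nonneg fun q' _ => ?_).trans'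
      (sum_le_sum fun q _ => sum_le_sum_of_subset_of_nonneg (PN_sub x) fun q' _ _ => ?_)
    · split_ifs <;> positivity
    · split_ifs <;> positivity
  have e2 : ∑ q ∈ PN x, ∑ q' ∈ PN x, (9165 / 10000 * (if q < q' ∧ ex x q + ex x q' ≤
        5 / 11 + 2 * κ then (1 : ℝ) / (q * q') else 0) +
      4064 / 10000 * (if q < q' ∧ (6 / 11 - 4 * κ ≤ ex x q + ex x q' ∧
        ex x q + ex x q' ≤ 7 / 11) then (1 : ℝ) / (q * q') else 0) +
      1 * (if q < q' ∧ 1 / 2 - 4 * κ ≤ ex x q + ex x q' ∧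
        ex x q + ex x q' ≤ 1 / 2 + 4 * κ then (1 : ℝ) / (q * q') else 0)) =
      9165 / 10000 * (∑ q ∈ PN x, ∑ q' ∈ PN x, (if q < q' ∧ ex x q + ex x q' ≤
        5 / 11 + 2 * κ then (1 : ℝ) / (q * q') else 0)) +
      4064 / 10000 * (∑ q ∈ PN x, ∑ q' ∈ PN x, (if q < q' ∧ (6 / 11 - 4 * κ ≤ ex x q + ex x q' ∧
        ex x q + ex x q' ≤ 7 / 11) then (1 : ℝ) / (q * q') else 0)) +
      1 * (∑ q ∈ PN x, ∑ q' ∈ PN x, (if q < q' ∧ 1 / 2 - 4 * κ ≤ ex x q + ex x q' ∧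
        ex x q + ex x q' ≤ 1 / 2 + 4 * κ then (1 : ℝ) / (q * q') else 0)) := by
    simp only [mul_sum, ← sum_add_distrib]
  rw [e2]
  norm_num at hA hB hC ⊢
  linarith

theorem L3N_core {x : ℕ} (hx : 1 < x) (hm : SL3.MerB x (1 / 100000))
    (hm8 : SL3.MerB x (1 / 10 ^ 8))
    (hκ : 0 ≤ kap x) (hκ1 : kap x ≤ 1 / 10 ^ 8) : L3N x ≤ 1 / 10 := by
  set κ := kap x with hκd
  have e0 : L3N x = ∑ p ∈ PN x, ∑ p' ∈ PN x, ∑ p'' ∈ PN x, tt x p p' p'' *
      (qq κ (ex x p + ex x p') + qq κ (ex x p + ex x p'') + qq κ (ex x p' + ex x p'')) *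
      (1 / ((p : ℝ) * p' * p'')) := by
    unfold L3N
    refine sum_congr rfl fun p _ => ?_
    rw [sum_filter]
    refine sum_congr rfl fun p' _ => ?_
    by_cases h : p < p'
    · rw [if_pos h, sum_filter]
      refine sum_congr rfl fun p'' _ => ?_
      by_cases h2 : p' < p'' ∧ ex x p + ex x p' + ex x p'' ≤ 9 / 11
      · rw [if_pos h2]
        have e2 : tt x p p' p'' = 1 := by unfold tt; rw [if_pos ⟨h, h2⟩]
        rw [e2, one_mul]
        unfold w3N qq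
        rw [div_eq_mul_one_div]
      · rw [if_neg h2]
        have e2 : tt x p p' p'' = 0 := by
          unfold tt
          rw [if_neg]
          rintro ⟨_, h3⟩
          exact h2 h3
        rw [e2]
        ring
    · rw [if_neg h]
      symm
      refine sum_eq_zero fun p'' _ => ?_
      have e2 : tt x p p' p'' = 0 := by
        unfold tt
        rw [if_neg]
        rintro ⟨h3, _⟩
        exact h h3
      rw [e2]
      ring
  rw [e0]
  exact (S5_le hx hm hm8 hκ hκ1).trans (by norm_num)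

end SN3

theorem L3N_le : ∃ x₁ : ℕ, ∀ x : ℕ, x₁ ≤ x → L3N x ≤ 1 / 10 := by
  obtain ⟨x1, h1⟩ := mer (1 / 10 ^ 8) (by norm_num)
  obtain ⟨x0, h0⟩ := mer (1 / 100000) (by norm_num)
  obtain ⟨x2, h2⟩ := Filter.eventually_atTop.1
    (Pool.Agent.HL.evt_log (max 1 (10 ^ 8 * Real.log 4)))
  refine ⟨x0 + x1 + x2 + 2, fun x hx => ?_⟩
  have h3 := h2 x (by omega)
  have h4 : 1 ≤ Real.log x := (le_max_left _ _).trans h3
  have h5 : 10 ^ 8 * Real.log 4 ≤ Real.log x := (le_max_right _ _).trans h3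
  have h6 : 0 ≤ Real.log 4 := Real.log_nonneg (by norm_num)
  apply SN3.L3N_core (by omega) (fun u v hu hv => h0 x (by omega) u v hu hv)
    (fun u v hu hv => h1 x (by omega) u v hu hv)
  · unfold kap
    positivity
  · unfold kap
    rw [div_le_iff₀ (by linarith)]
    linarith

end Pool.Agent.HN
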