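import Pool.Agent.Work.MP_92f640_nt.HN.W.Kd
import Pool.Agent.Work.MP_92f640_nt.HN.W.Sum2
import Pool.Agent.Work.MP_92f640_nt.HN.W.Sum3
import Pool.Agent.Work.MP_92f640_nt.HN.W.Sum14

/-! # Module W.Fin -/

namespace Pool.Agent.HN

open Finset Pool.Agent.HS

theorem vlowN : VLowN (1 / 20) 4 := by
  obtain ⟨x1, h1⟩ := cwN_wt
  obtain ⟨x2, h2⟩ := cwN_wte
  obtain ⟨x3, h3⟩ := minorN
  obtain ⟨x4, h4⟩ := KK_lowN
  obtain ⟨x5, h5⟩ := L1N_le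
  obtain ⟨x6, h6⟩ := L2N_le
  obtain ⟨x7, h7⟩ := L3N_le
  obtain ⟨x8, h8⟩ := L4N_le
  refine ⟨x1 + x2 + x3 + x4 + x5 + x6 + x7 + x8, fun x hx => ⟨cwN x, EwN x, ?_⟩⟩
  refine ⟨h1 x (by omega), h2 x (by omega), h3 x (by omega), fun n hn1 hn2 => ?_⟩
  have a4 := h4 x (by omega) n hn1 hn2
  have a5 := h5 x (by omega)
  have a6 := h6 x (by omega)
  have a7 := h7 x (by omega)
  have a8 := h8 x (by omega)
  linarith

end Pool.Agent.HN
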