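import Pool.Agent.Work.MP_92f640_nt.HN.W.Div
import Pool.Agent.Work.MP_92f640_nt.HS.W.Kd

/-! # Module W.Kd: the density in terms of the losses (model HS/W/Kd)

`S = t + a + b + .. ∈ (1 - 2κ, 1]`, all `≥ 2/11`.
`k = 2`: `-F ≤ w1N a` (`F ≥ -1`; `F ≥ 0` outside the windows). `k = 3`, `a ≤ b`: `-F ≤ 2` always; if `w2N = 1`: `a + b < 5/11 - 2κ` (then `t > 6/11`, `c(t) = 0`) or `b > 6/11 + 2κ` (`c(b) = 0`): `F ≥ -1`; if `w2N = 0`: `1/2 + 2κ < a + b` and
(`a + b < 6/11 - 4κ` or `5/11 + 2κ < b < 1/2 - 2κ`), `b < 1/2 - 2κ`: in the first case `5/11 + 2κ < t < 1/2 - 2κ`: `c(t) = 0` and the pair `a + b` counts `+1`; in the second `c(b) = 0` and the pair `a + t` counts: `F ≥ 1 - 2 + 1`.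
`k = 4`: `F ≥ -3 + #{complementary couples with a counted pair}`; the couple of `σ = a + b` has one unless `QN κ σ`. `k = 5`: `F ≥ -4`. Five primes in `m` are impossible (`10/11 > 9/11`). -/

namespace Pool.Agent.HN

open Finset Pool.Agent.HS Pool.Agent.HL Filter

private lemma gN0 (κ s : ℝ) : gN κ 0 s = 1 := by simp [gN]

private lemma gN1 (κ s : ℝ) : (gN κ 1 s = -1 ∧ (s ≤ 5 / 11 ∨ (1 / 2 - κ < s ∧ s ≤ 6 / 11))) ∨
    (gN κ 1 s = 0 ∧ 5 / 11 < s ∧ (s ≤ 1 / 2 - κ ∨ 6 / 11 < s)) := by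
  unfold gN
  rw [if_neg (by norm_num), if_pos rfl]
  by_cases h : s ≤ 5 / 11 ∨ (1 / 2 - κ < s ∧ s ≤ 6 / 11)
  · rw [if_pos h]
    exact Or.inl ⟨rfl, h⟩
  · rw [if_neg h]
    push Not at h
    refine Or.inr ⟨rfl, h.1, ?_⟩
    by_cases h2 : 1 / 2 - κ < s
    · exact Or.inr (h.2 h2)
    · exact Or.inl (not_lt.1 h2)

private lemma gN2 (κ s : ℝ) : (gN κ 2 s = 1 ∧ (1 / 2 < s ∧ s ≤ 6 / 11 - 2 * κ)) ∨
    (gN κ 2 s = 0 ∧ (s ≤ 1 / 2 ∨ 6 / 11 - 2 * κ < s)) := by
  unfold gN
  rw [if_neg (by norm_num), if_neg (by norm_num), if_pos rfl]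
  by_cases h : 1 / 2 < s ∧ s ≤ 6 / 11 - 2 * κ
  · rw [if_pos h]
    exact Or.inl ⟨rfl, h⟩
  · rw [if_neg h]
    push Not at h
    refine Or.inr ⟨rfl, ?_⟩
    by_cases h2 : 1 / 2 < s
    · exact Or.inr (h h2)
    · exact Or.inl (not_lt.1 h2)

private lemma gN3 (κ s : ℝ) : gN κ 3 s = 0 := by
  unfold gN
  norm_num

private lemma gN4 (κ s : ℝ) : gN κ 4 s = 0 := by
  unfold gN
  norm_num

private lemma gN5 (κ s : ℝ) : gN κ 5 s = 0 := by
  unfold gN
  norm_num

private lemma gN1_ge (κ s : ℝ) : -1 ≤ gN κ 1 s := by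
  rcases gN1 κ s with h | h <;> rw [h.1] <;> norm_num

private lemma gN2_ge (κ s : ℝ) : 0 ≤ gN κ 2 s := by
  rcases gN2 κ s with h | h <;> rw [h.1] <;> norm_num

private lemma gN1_zero {κ s : ℝ} (h1 : 5 / 11 < s) (h2 : s ≤ 1 / 2 - κ ∨ 6 / 11 < s) :
    gN κ 1 s = 0 := by
  rcases gN1 κ s with ⟨_, h | h⟩ | ⟨h, _⟩
  · exfalso; linarith
  · exfalso
    rcases h2 with h2 | h2
    · linarith [h.1]
    · linarith [h.2]
  · exact h

private lemma gN2_one {κ s : ℝ} (h1 : 1 / 2 < s) (h2 : s ≤ 6 / 11 - 2 * κ) : gN κ 2 s = 1 := by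
  rcases gN2 κ s with ⟨h, _⟩ | ⟨_, h | h⟩
  · exact h
  · exfalso; linarith
  · exfalso; linarith

private lemma w1N_nonneg (κ a : ℝ) : 0 ≤ w1N κ a := by
  unfold w1N
  split_ifs <;> norm_num

private lemma w2N_nonneg (κ a b : ℝ) : 0 ≤ w2N κ a b := by
  unfold w2N
  have h1 : (0 : ℝ) ≤ if b ≤ 5 / 11 + 2 * κ ∧ 6 / 11 - 4 * κ ≤ a + b then 2 else 0 := by
    split_ifs <;> norm_num
  have h2 : (0 : ℝ) ≤ if a + b ≤ 1 / 2 + 2 * κ then 1 else 0 := by split_ifs <;> norm_num
  have h3 : (0 : ℝ) ≤ if 5 / 11 - 2 * κ ≤ a + b ∧ a + b ≤ 1 / 2 + 2 * κ then 1 else 0 := by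
    split_ifs <;> norm_num
  have h4 : (0 : ℝ) ≤ if 1 / 2 - 2 * κ ≤ b then 1 else 0 := by split_ifs <;> norm_num
  have h5 : (0 : ℝ) ≤ if 1 / 2 - 2 * κ ≤ b ∧ b ≤ 6 / 11 + 2 * κ then 1 else 0 := by
    split_ifs <;> norm_num
  linarith

open Classical in
private lemma w3N_nonneg (κ a b c : ℝ) : 0 ≤ w3N κ a b c := by
  unfold w3N
  have h5 : (0 : ℝ) ≤ if QN κ (a + b) then 1 else 0 := by split_ifs <;> norm_num
  have h6 : (0 : ℝ) ≤ if QN κ (a + c) then 1 else 0 := by split_ifs <;> norm_num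
  have h7 : (0 : ℝ) ≤ if QN κ (b + c) then 1 else 0 := by split_ifs <;> norm_num
  linarith

private lemma w1N_eq {κ a : ℝ} (h : WinN κ a) : w1N κ a = 1 := by
  unfold w1N
  rw [if_pos h]

private lemma F2N_ge (κ t a : ℝ) (h0 : 0 ≤ κ) (h1 : κ ≤ 1 / 1000)
    (hS : 1 - 2 * κ < t + a) (hS1 : t + a ≤ 1) : -w1N κ a ≤ FrN κ [t, a] 0 0 := by
  simp only [FrN, zero_add]
  rw [gN0]
  have e2 := gN2_ge κ (t + a)
  norm_num at e2 ⊢
  have w0 := w1N_nonneg κ a
  rcases gN1 κ a with ⟨ha1, ha2⟩ | ⟨ha1, ha2⟩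
  · rcases gN1 κ t with ⟨ht1, ht2⟩ | ⟨ht1, ht2⟩
    · have hw : WinN κ a := by
        unfold WinN
        rcases ha2 with h | h
        · rcases ht2 with h' | h'
          · exfalso; linarith
          · left
            rw [abs_le]
            constructor <;> linarith [h'.1, h'.2]
        · rcases ht2 with h' | h'
          · right; right
            rw [abs_le]
            constructor <;> linarith [h.1, h.2]
          · right; left
            rw [abs_le]
            constructor <;> linarith [h.1, h.2, h'.1, h'.2]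
      rw [w1N_eq hw]
      linarith
    · linarith
  · have := gN1_ge κ t
    linarith

private lemma F3N_ge (κ t a b : ℝ) (h0 : 0 ≤ κ) (h1 : κ ≤ 1 / 1000) (ha : 2 / 11 ≤ a)
    (hS : 1 - 2 * κ < t + a + b) (hS1 : t + a + b ≤ 1) :
    -w2N κ a b ≤ FrN κ [t, a, b] 0 0 := by
  simp only [FrN, zero_add]
  rw [gN0]
  norm_num
  rw [gN3]
  have p1 := gN1_ge κ t
  have p2 := gN1_ge κ a
  have p3 := gN1_ge κ b
  have r1 := gN2_ge κ (t + a)
  have r2 := gN2_ge κ (t + b)
  have r3 := gN2_ge κ (a + b)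
  have w0 := w2N_nonneg κ a b
  -- the five parts of the weight
  have g1 : (0 : ℝ) ≤ if b ≤ 5 / 11 + 2 * κ ∧ 6 / 11 - 4 * κ ≤ a + b then 2 else 0 := by
    split_ifs <;> norm_num
  have g2 : (0 : ℝ) ≤ if a + b ≤ 1 / 2 + 2 * κ then 1 else 0 := by split_ifs <;> norm_num
  have g3 : (0 : ℝ) ≤ if 5 / 11 - 2 * κ ≤ a + b ∧ a + b ≤ 1 / 2 + 2 * κ then 1 else 0 := by
    split_ifs <;> norm_num
  have g4 : (0 : ℝ) ≤ if 1 / 2 - 2 * κ ≤ b then 1 else 0 := by split_ifs <;> norm_num
  have g5 : (0 : ℝ) ≤ if 1 / 2 - 2 * κ ≤ b ∧ b ≤ 6 / 11 + 2 * κ then 1 else 0 := by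
    split_ifs <;> norm_num
  by_cases hA : b ≤ 5 / 11 + 2 * κ ∧ 6 / 11 - 4 * κ ≤ a + b
  · have : 2 ≤ w2N κ a b := by
      unfold w2N
      rw [if_pos hA]
      linarith
    linarith
  by_cases hB : a + b ≤ 1 / 2 + 2 * κ
  · by_cases hC : 5 / 11 - 2 * κ ≤ a + b
    · have : 2 ≤ w2N κ a b := by
        unfold w2N
        rw [if_pos hB, if_pos (show 5 / 11 - 2 * κ ≤ a + b ∧ a + b ≤ 1 / 2 + 2 * κ from ⟨hC, hB⟩)]
        linarith
      linarith
    · have h1w : 1 ≤ w2N κ a b := by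
        unfold w2N
        rw [if_pos hB]
        linarith
      have e : gN κ 1 t = 0 := gN1_zero (by linarith) (Or.inr (by linarith))
      rw [e]
      linarith
  by_cases hD : 1 / 2 - 2 * κ ≤ b
  · by_cases hE : b ≤ 6 / 11 + 2 * κ
    · have : 2 ≤ w2N κ a b := by
        unfold w2N
        rw [if_pos hD, if_pos (show 1 / 2 - 2 * κ ≤ b ∧ b ≤ 6 / 11 + 2 * κ from ⟨hD, hE⟩)]
        linarith
      linarith
    · have h1w : 1 ≤ w2N κ a b := by
        unfold w2N
        rw [if_pos hD]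
        linarith
      have e : gN κ 1 b = 0 := gN1_zero (by linarith) (Or.inr (by linarith))
      rw [e]
      linarith
  push Not at hA hB hD
  by_cases hb : b ≤ 5 / 11 + 2 * κ
  · have hab := hA hb
    have e1 : gN κ 1 t = 0 := gN1_zero (by linarith) (Or.inl (by linarith))
    have e2 : gN κ 2 (a + b) = 1 := gN2_one (by linarith) (by linarith)
    rw [e1, e2]
    linarith
  · push Not at hb
    have e1 : gN κ 1 b = 0 := gN1_zero (by linarith) (Or.inl (by linarith))
    have e2 : gN κ 2 (t + a) = 1 := gN2_one (by linarith) (by linarith)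
    rw [e1, e2]
    linarith

open Classical in
/-- a pair and its complementary pair -/
private lemma pair22N (κ S s : ℝ) (h0 : 0 ≤ κ) (hS : 1 - 2 * κ < S) (hS1 : S ≤ 1) :
    1 - (if QN κ s then (1 : ℝ) else 0) ≤ gN κ 2 s + gN κ 2 (S - s) := by
  have g1 := gN2_ge κ s
  have g2 := gN2_ge κ (S - s)
  by_cases hQ : QN κ s
  · rw [if_pos hQ]
    linarith
  · rw [if_neg hQ]
    unfold QN at hQ
    push Not at hQ
    obtain ⟨q1, q2, q3⟩ := hQ
    rcases lt_abs.1 q3 with q | q
    · rw [gN2_one (κ := κ) (s := s) (by linarith) (by linarith)]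
      linarith
    · rw [gN2_one (κ := κ) (s := S - s) (by linarith) (by linarith)]
      linarith

private lemma F4N_ge (κ t a b c : ℝ) (h0 : 0 ≤ κ)
    (hS : 1 - 2 * κ < t + a + b + c) (hS1 : t + a + b + c ≤ 1) :
    -w3N κ a b c ≤ FrN κ [t, a, b, c] 0 0 := by
  simp only [FrN, zero_add]
  rw [gN0]
  norm_num
  simp only [gN3, gN4]
  have p1 := gN1_ge κ t
  have p2 := gN1_ge κ a
  have p3 := gN1_ge κ b
  have p4 := gN1_ge κ c
  have q5 := pair22N κ (t + a + b + c) (a + b) h0 hS hS1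
  have q6 := pair22N κ (t + a + b + c) (a + c) h0 hS hS1
  have q7 := pair22N κ (t + a + b + c) (b + c) h0 hS hS1
  rw [show t + a + b + c - (a + b) = t + c by ring] at q5
  rw [show t + a + b + c - (a + c) = t + b by ring] at q6
  rw [show t + a + b + c - (b + c) = t + a by ring] at q7
  unfold w3N
  linarith

private lemma F5N_ge (κ t a b c d : ℝ) : -4 ≤ FrN κ [t, a, b, c, d] 0 0 := by
  simp only [FrN, zero_add]
  rw [gN0]
  norm_num
  simp only [gN3, gN4, gN5]
  have p1 := gN1_ge κ t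
  have p2 := gN1_ge κ a
  have p3 := gN1_ge κ b
  have p4 := gN1_ge κ c
  have p5 := gN1_ge κ d
  have r1 := gN2_ge κ (t + a)
  have r2 := gN2_ge κ (t + b)
  have r3 := gN2_ge κ (t + c)
  have r4 := gN2_ge κ (t + d)
  have r5 := gN2_ge κ (a + b)
  have r6 := gN2_ge κ (a + c)
  have r7 := gN2_ge κ (a + d)
  have r8 := gN2_ge κ (b + c)
  have r9 := gN2_ge κ (b + d)
  have r10 := gN2_ge κ (c + d)
  linarith

/-- the data of `n`, `m` -/
structure KdOKN (x n m : ℕ) : Prop where
  sf : Squarefree m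
  pr : ∀ p : ℕ, p.Prime → p ∣ m → zx (9 / 11) x ≤ p
  pos : 1 ≤ m
  le : m ≤ n / zx (9 / 11) x

/-- consequences for large `x` -/
structure KdLogN (x n m : ℕ) : Prop where
  t1 : 1 ≤ n / m
  tz : 2 / 11 ≤ ex x (n / m)
  up : ex x m ≤ 9 / 11
  sum0 : 1 - 2 * kap x < ex x (n / m) + ex x m
  sum1 : ex x (n / m) + ex x m ≤ 1
  pex : ∀ p : ℕ, p.Prime → p ∣ m → 2 / 11 ≤ ex x p
  px : ∀ p : ℕ, p.Prime → p ∣ m → p ∈ PN x
  sm : m.primeFactorsList.length < 5

private lemma log_zN {x : ℕ} (hx : 1 ≤ x) : 2 / 11 * Real.log x ≤ Real.log (zx (9 / 11) x) := by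
  have hx0 : (0 : ℝ) < x := by exact_mod_cast hx
  have h1 : (x : ℝ) ^ (1 - (9 / 11 : ℝ)) ≤ (zx (9 / 11) x : ℝ) := Nat.le_ceil _
  have h2 := Real.log_le_log (by positivity) h1
  rw [Real.log_rpow hx0] at h2
  linarith

theorem kdLogN : ∃ x₁ : ℕ, ∀ x : ℕ, x₁ ≤ x → ∀ n : ℕ, x / 8 < n → n ≤ x → ∀ m : ℕ, KdOKN x n m →
    KdLogN x n m := by
  have hz : ∀ᶠ x : ℕ in atTop, 4 * (Real.log x) ^ 0 ≤ (x : ℝ) ^ (1 - 9 / 11 : ℝ) :=
    evt_pow 4 0 (1 - 9 / 11) (by norm_num)
  obtain ⟨x₁, hx₁⟩ := eventually_atTop.1 ((hz.and (evt_log 1)).and (eventually_ge_atTop 2))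
  refine ⟨x₁, fun x hx n hn1 hn2 m hm => ?_⟩
  obtain ⟨⟨hz4, hL⟩, hx2⟩ := hx₁ x hx
  set z := zx (9 / 11) x with hz
  set L := Real.log (x : ℝ) with hLdef
  have hL0 : 0 < L := by linarith
  have hzz : 4 ≤ z := by
    have h1 : (x : ℝ) ^ (1 - (9 / 11 : ℝ)) ≤ (z : ℝ) := Nat.le_ceil _
    rw [pow_zero, mul_one] at hz4
    have : (4 : ℝ) ≤ z := hz4.trans h1
    exact_mod_cast this
  have hlz : 2 / 11 * L ≤ Real.log z := log_zN (by omega)
  have hx0 : (0 : ℝ) < x := by
    have : 0 < x := by omega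
    exact_mod_cast this
  have hmz : m * z ≤ n := (Nat.le_div_iff_mul_le (by omega)).1 hm.le
  have hmpos := hm.pos
  have hmn : m ≤ n := le_trans (Nat.le_mul_of_pos_right m (by omega)) hmz
  have htz : z ≤ n / m := (Nat.le_div_iff_mul_le (by omega)).2 (by rw [mul_comm]; exact hmz)
  have ht1 : 1 ≤ n / m := by omega
  have hm0 : (0 : ℝ) < m := by exact_mod_cast hmpos
  have ht0 : (0 : ℝ) < ((n / m : ℕ) : ℝ) := by exact_mod_cast ht1
  have hz0 : (0 : ℝ) < z := by
    have : 0 < z := by omega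
    exact_mod_cast this
  have hsum : ex x (n / m) + ex x m = Real.log (((n / m * m : ℕ)) : ℝ) / L := by
    rw [← ex_mul x (by omega) (by omega)]
    rfl
  have h16 : x < 16 * (n / m * m) := by
    have h1 : n < n / m * m + m := Nat.lt_div_mul_add (by omega)
    have h2 : 4 * m ≤ n := le_trans (by nlinarith) hmz
    have h3 : x < 8 * n := by omega
    omega
  have hup : ex x m ≤ 9 / 11 := by
    unfold ex
    rw [div_le_iff₀ hL0]
    have h1 : Real.log (m : ℝ) + Real.log z ≤ L := by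
      rw [← Real.log_mul hm0.ne' hz0.ne']
      apply Real.log_le_log (by positivity)
      exact_mod_cast hmz.trans hn2
    linarith
  refine ⟨ht1, ?_, hup, ?_, ?_, ?_, ?_, ?_⟩
  · unfold ex
    rw [le_div_iff₀ hL0]
    refine hlz.trans ?_
    apply Real.log_le_log hz0
    exact_mod_cast htz
  · rw [hsum, lt_div_iff₀ hL0]
    unfold kap
    have e : (1 - 2 * (Real.log 4 / Real.log x)) * L = L - 2 * Real.log 4 := by
      rw [← hLdef]
      field_simp
    rw [e]
    have h1 : 2 * Real.log 4 = Real.log 16 := by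
      rw [show (16 : ℝ) = 4 ^ 2 by norm_num, Real.log_pow]
      push_cast
      ring
    rw [h1]
    have h2 : L < Real.log (16 * (((n / m * m : ℕ)) : ℝ)) := by
      apply Real.log_lt_log hx0
      exact_mod_cast h16
    have h3 : (0 : ℝ) < ((n / m * m : ℕ) : ℝ) := by
      push_cast
      positivity
    rw [Real.log_mul (by norm_num) h3.ne'] at h2
    linarith
  · rw [hsum, div_le_one hL0]
    have h3 : (0 : ℝ) < ((n / m * m : ℕ) : ℝ) := by
      push_cast
      positivity
    apply Real.log_le_log h3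
    have : n / m * m ≤ x := (Nat.div_mul_le_self n m).trans hn2
    exact_mod_cast this
  · intro p hp hpm
    unfold ex
    rw [le_div_iff₀ hL0]
    refine hlz.trans ?_
    apply Real.log_le_log hz0
    exact_mod_cast hm.pr p hp hpm
  · intro p hp hpm
    have hple : p ≤ m := Nat.le_of_dvd (by omega) hpm
    unfold PN PS
    rw [mem_filter, mem_Icc]
    refine ⟨⟨hp.one_le, by omega⟩, hp, ?_, ?_⟩
    · unfold ex
      rw [le_div_iff₀ hL0]
      refine hlz.trans ?_
      apply Real.log_le_log hz0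
      exact_mod_cast hm.pr p hp hpm
    · refine le_trans ?_ hup
      unfold ex
      gcongr
      have : 0 < p := hp.pos
      exact_mod_cast this
  · by_contra hc
    push Not at hc
    set l := m.primeFactorsList with hl
    have h1 : ∀ p ∈ l, z ≤ p := fun p hp =>
      hm.pr p (Nat.prime_of_mem_primeFactorsList hp) (Nat.dvd_of_mem_primeFactorsList hp)
    have hprod : l.prod = m := Nat.prod_primeFactorsList (by omega)
    -- five factors
    have h5 : z ^ 5 ≤ m := by
      have h2 := prod_ge l h1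
      rw [hprod] at h2
      exact le_trans (Nat.pow_le_pow_right (by omega) hc) h2
    have h6 : 5 * Real.log (z : ℝ) ≤ Real.log (m : ℝ) := by
      have h7 : ((z : ℝ)) ^ 5 ≤ (m : ℝ) := by exact_mod_cast h5
      have h8 := Real.log_le_log (by positivity) h7
      rw [Real.log_pow] at h8
      exact_mod_cast h8
    have h7 : Real.log (m : ℝ) ≤ 9 / 11 * L := by
      have h8 := hup
      unfold ex at h8
      rw [div_le_iff₀ hL0] at h8
      exact h8
    linarith

/-- the sum over the divisors is `FrN` -/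
private lemma psi_listN {x n m : ℕ} (hm : KdOKN x n m) (ht : 1 ≤ n / m) :
    ∑ d ∈ m.divisors, (cwN x d + EwN x d (n / m)) =
      FrN (kap x) (ex x (n / m) :: m.primeFactorsList.map (ex x)) 0 0 := by
  have hpos := hm.pos
  have hprod : m.primeFactorsList.prod = m := Nat.prod_primeFactorsList (by omega)
  have h := psi_FrN x m.primeFactorsList (fun p hp => Nat.prime_of_mem_primeFactorsList hp)
    (fun p hp => hm.pr p (Nat.prime_of_mem_primeFactorsList hp) (Nat.dvd_of_mem_primeFactorsList hp))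
    ((Nat.squarefree_iff_nodup_primeFactorsList (by omega)).1 hm.sf) (n / m) ht
  rw [hprod] at h
  exact h

private lemma z_le_nN : ∃ x₁ : ℕ, ∀ x : ℕ, x₁ ≤ x → ∀ n : ℕ, x / 8 < n → zx (9 / 11) x ≤ n := by
  obtain ⟨x₁, hx₁⟩ := eventually_atTop.1 ((evt_pow 4 0 (1 - 9 / 11) (by norm_num)).and
    (eventually_ge_atTop 1))
  refine ⟨x₁, fun x hx n hn => ?_⟩
  obtain ⟨h1, h2⟩ := hx₁ x hx
  have hx0 : (0 : ℝ) < x := by exact_mod_cast h2
  have hx1 : (1 : ℝ) ≤ x := by exact_mod_cast h2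
  rw [pow_zero, mul_one] at h1
  set y : ℝ := (x : ℝ) ^ (1 - (9 / 11 : ℝ)) with hy
  have h3 : y ^ 5 ≤ (x : ℝ) := by
    rw [hy, ← Real.rpow_natCast, ← Real.rpow_mul hx0.le]
    calc (x : ℝ) ^ ((1 - (9 / 11 : ℝ)) * ((5 : ℕ) : ℝ)) ≤ (x : ℝ) ^ (1 : ℝ) :=
          Real.rpow_le_rpow_of_exponent_le hx1 (by norm_num)
      _ = x := Real.rpow_one _
  have h4 : (zx (9 / 11) x : ℝ) < y + 1 := Nat.ceil_lt_add_one (by positivity)
  have h5 : x < 8 * n := by omega
  have h6 : (x : ℝ) < 8 * n := by exact_mod_cast h5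
  have h7 : (256 : ℝ) * y ≤ y ^ 5 := by
    have : (4 : ℝ) ^ 4 ≤ y ^ 4 := by gcongr
    calc (256 : ℝ) * y = 4 ^ 4 * y := by norm_num
      _ ≤ y ^ 4 * y := by gcongr
      _ = y ^ 5 := by ring
  have h8 : (zx (9 / 11) x : ℝ) < n := by linarith
  exact le_of_lt (by exact_mod_cast h8)

theorem KK_lowN : ∃ x₁ : ℕ, ∀ x : ℕ, x₁ ≤ x → ∀ n : ℕ, x / 8 < n → n ≤ x →
    1 - L1N x - L2N x - L3N x - 4 * L4N x ≤ KK (cwN x) (EwN x) (zx (9 / 11) x) n := by
  classical
  obtain ⟨x₀, hx₀⟩ := kdLogN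
  obtain ⟨x₀', hx₀'⟩ := z_le_nN
  obtain ⟨x₁, hx₁⟩ := eventually_atTop.1 ((evt_log (1000 * Real.log 4)).and
    ((eventually_ge_atTop x₀).and (eventually_ge_atTop x₀')))
  refine ⟨x₁, fun x hx n hn1 hn2 => ?_⟩
  obtain ⟨hL, hxx, hxx'⟩ := hx₁ x hx
  have hzn := hx₀' x hxx' n hn1
  have hl4 : 0 < Real.log 4 := Real.log_pos (by norm_num)
  have hL0 : 0 < Real.log (x : ℝ) := by linarith
  have hκ0 : 0 ≤ kap x := by
    unfold kap
    positivity
  have hκ1 : kap x ≤ 1 / 1000 := by
    unfold kap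
    rw [div_le_div_iff₀ hL0 (by norm_num)]
    linarith
  set S : Finset ℕ := (Icc 1 (n / zx (9 / 11) x)).filter (fun m => Squarefree m ∧
    ∀ p : ℕ, p.Prime → p ∣ m → zx (9 / 11) x ≤ p) with hS
  have hok : ∀ m ∈ S, KdOKN x n m := by
    intro m hm
    rw [hS, mem_filter, mem_Icc] at hm
    exact ⟨hm.2.1, hm.2.2, hm.1.1, hm.1.2⟩
  have hlg : ∀ m ∈ S, KdLogN x n m := fun m hm => hx₀ x hxx n hn1 hn2 m (hok m hm)
  set G : ℕ → ℝ := fun m => (1 / (m : ℝ)) * ∑ d ∈ m.divisors, (cwN x d + EwN x d (n / m)) with hG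
  set len : ℕ → ℕ := fun m => m.primeFactorsList.length with hlen
  have hKK : KK (cwN x) (EwN x) (zx (9 / 11) x) n = ∑ m ∈ S, G m := by
    unfold KK
    rfl
  have hfib : ∑ m ∈ S, G m = ∑ j ∈ range 5, ∑ m ∈ S.filter (fun m => len m = j), G m := by
    symm
    apply sum_fiberwise_of_maps_to
    intro m hm
    rw [mem_range]
    exact (hlg m hm).sm
  have hGF : ∀ m ∈ S, G m = (1 / (m : ℝ)) *
      FrN (kap x) (ex x (n / m) :: m.primeFactorsList.map (ex x)) 0 0 := by
    intro m hm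
    simp only [hG]
    rw [psi_listN (hok m hm) (hlg m hm).t1]
  have hinj : ∀ m ∈ S, ∀ m' ∈ S, m.primeFactorsList = m'.primeFactorsList → m = m' := by
    intro m hm m' hm' h
    have h1 := (hok m hm).pos
    have h2 := (hok m' hm').pos
    rw [← Nat.prod_primeFactorsList (show m ≠ 0 by omega),
      ← Nat.prod_primeFactorsList (show m' ≠ 0 by omega), h]
  have hpr : ∀ m ∈ S, ∀ p ∈ m.primeFactorsList, p ∈ PN x ∧ 2 / 11 ≤ ex x p ∧ 0 < p := by
    intro m hm p hp
    have h1 := Nat.prime_of_mem_primeFactorsList hp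
    have h2 := Nat.dvd_of_mem_primeFactorsList hp
    exact ⟨(hlg m hm).px p h1 h2, (hlg m hm).pex p h1 h2, h1.pos⟩
  have hprod : ∀ m ∈ S, m.primeFactorsList.prod = m := fun m hm =>
    Nat.prod_primeFactorsList (by have := (hok m hm).pos; omega)
  have hlt : ∀ m ∈ S, m.primeFactorsList.Pairwise (· < ·) := fun m hm =>
    list_lt (by have := (hok m hm).pos; omega) (hok m hm).sf
  -- no prime factor
  have s0 : ∑ m ∈ S.filter (fun m => len m = 0), G m ≥ 1 := by
    have hz0 : 0 < zx (9 / 11) x := by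
      unfold zx
      rw [Nat.ceil_pos]
      have : (0 : ℝ) < x := by
        by_contra hc
        push Not at hc
        have : (x : ℝ) = 0 := le_antisymm hc (Nat.cast_nonneg x)
        rw [this, Real.log_zero] at hL0
        exact lt_irrefl _ hL0
      positivity
    have h1S : 1 ∈ S := by
      rw [hS, mem_filter, mem_Icc]
      refine ⟨⟨le_rfl, (Nat.le_div_iff_mul_le hz0).2 (by omega)⟩, squarefree_one, ?_⟩
      intro p hp hp1
      exact absurd (Nat.dvd_one.1 hp1) hp.one_lt.ne'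
    have e : S.filter (fun m => len m = 0) = {1} := by
      ext m
      rw [mem_filter, mem_singleton]
      constructor
      · rintro ⟨h1, h2⟩
        rw [← hprod m h1, List.length_eq_zero_iff.1 h2]
        rfl
      · rintro rfl
        exact ⟨h1S, by simp [hlen]⟩
    rw [e, sum_singleton, hGF 1 h1S]
    have h2 := (hlg 1 h1S).sum0
    have h3 : ex x 1 = 0 := by simp [ex]
    rw [h3, add_zero] at h2
    have h4 : (Nat.primeFactorsList 1).map (ex x) = [] := by simp
    rw [h4]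
    unfold FrN
    unfold FrN
    unfold gN
    rw [if_pos rfl, if_neg (by norm_num), if_pos (by norm_num), if_neg]
    · norm_num
    · rw [zero_add]
      rintro (h | ⟨_, h⟩) <;> linarith
  -- one prime factor
  have s1 : ∑ m ∈ S.filter (fun m => len m = 1), -G m ≤ L1N x := by
    unfold L1N
    refine sum_cover (fun m => m.primeFactorsList.getD 0 0) ?_ ?_ ?_ ?_
    · intro m hm
      obtain ⟨h1, h2⟩ := mem_filter.1 hm
      obtain ⟨a, ha⟩ := List.length_eq_one_iff.1 h2
      have := hpr m h1 a (by rw [ha]; simp)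
      simpa [ha] using this.1
    · intro m hm m' hm' h
      obtain ⟨h1, h2⟩ := mem_filter.1 (mem_coe.1 hm)
      obtain ⟨h1', h2'⟩ := mem_filter.1 (mem_coe.1 hm')
      obtain ⟨a, ha⟩ := List.length_eq_one_iff.1 h2
      obtain ⟨a', ha'⟩ := List.length_eq_one_iff.1 h2'
      apply hinj m h1 m' h1'
      simp only [ha, ha', List.getD_cons_zero] at h
      rw [ha, ha', h]
    · intro m hm
      obtain ⟨h1, h2⟩ := mem_filter.1 hm
      obtain ⟨a, ha⟩ := List.length_eq_one_iff.1 h2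
      have hlog := hlg m h1
      have hpa := hpr m h1 a (by rw [ha]; simp)
      have hma : a = m := by have := hprod m h1; rw [ha] at this; simpa using this
      have hm0 : (0 : ℝ) < m := by exact_mod_cast (hok m h1).pos
      have hs0 := hlog.sum0
      have hs1 := hlog.sum1
      rw [hGF m h1, ha]
      simp only [List.map_cons, List.map_nil, List.getD_cons_zero]
      rw [← hma] at hs0 hs1 hm0 ⊢
      have hF := F2N_ge (kap x) (ex x (n / a)) (ex x a) hκ0 hκ1 hs0 hs1
      exact fin_ineq hm0 hF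
    · intro p _
      exact div_nonneg (w1N_nonneg _ _) (Nat.cast_nonneg p)
  have s2 : ∑ m ∈ S.filter (fun m => len m = 2), -G m ≤ L2N x := by
    unfold L2N
    rw [sum_sigma']
    refine sum_cover (fun m => (⟨m.primeFactorsList.getD 0 0, m.primeFactorsList.getD 1 0⟩ :
      Σ _ : ℕ, ℕ)) ?_ ?_ ?_ ?_
    · intro m hm
      obtain ⟨h1, h2⟩ := mem_filter.1 hm
      obtain ⟨a, b, ha⟩ := List.length_eq_two.1 h2
      have hpa := hpr m h1 a (by rw [ha]; simp)
      have hpb := hpr m h1 b (by rw [ha]; simp)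
      have hl := hlt m h1
      have hp := hprod m h1
      rw [ha] at hl hp
      have hab : a < b := by simpa using hl
      have hup := (hlg m h1).up
      rw [← hp] at hup
      simp only [List.prod_cons, List.prod_nil, mul_one] at hup
      rw [ex_mul x (by omega) (by omega)] at hup
      simp only [ha, List.getD_cons_zero, List.getD_cons_succ, mem_sigma, mem_filter]
      exact ⟨hpa.1, hpb.1, hab, hup⟩
    · intro m hm m' hm' h
      obtain ⟨h1, h2⟩ := mem_filter.1 (mem_coe.1 hm)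
      obtain ⟨h1', h2'⟩ := mem_filter.1 (mem_coe.1 hm')
      obtain ⟨a, b, ha⟩ := List.length_eq_two.1 h2
      obtain ⟨a', b', ha'⟩ := List.length_eq_two.1 h2'
      apply hinj m h1 m' h1'
      simp only [ha, ha', List.getD_cons_zero, List.getD_cons_succ, Sigma.mk.injEq,
        heq_eq_eq] at h
      rw [ha, ha', h.1, h.2]
    · intro m hm
      obtain ⟨h1, h2⟩ := mem_filter.1 hm
      obtain ⟨a, b, ha⟩ := List.length_eq_two.1 h2
      have hlog := hlg m h1
      have hpa := hpr m h1 a (by rw [ha]; simp)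
      have hpb := hpr m h1 b (by rw [ha]; simp)
      have hl := hlt m h1
      have hp := hprod m h1
      rw [ha] at hl hp
      have hab : a < b := by simpa using hl
      simp only [List.prod_cons, List.prod_nil, mul_one] at hp
      have hm0 : (0 : ℝ) < m := by exact_mod_cast (hok m h1).pos
      have hs0 := hlog.sum0
      have hs1 := hlog.sum1
      have hexm : ex x m = ex x a + ex x b := by
        rw [← hp]
        exact ex_mul x (by omega) (by omega)
      have hmR : ((a : ℝ) * b) = m := by exact_mod_cast hp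
      have hexab : ex x a ≤ ex x b := by
        unfold ex
        have : (a : ℝ) ≤ b := by exact_mod_cast hab.le
        have h0 : (0 : ℝ) < a := by exact_mod_cast hpa.2.2
        gcongr
      rw [hGF m h1, ha]
      simp only [List.map_cons, List.map_nil, List.getD_cons_zero, List.getD_cons_succ]
      rw [hmR]
      have hF := F3N_ge (kap x) (ex x (n / m)) (ex x a) (ex x b) hκ0 hκ1 hpa.2.1
        (by linarith) (by linarith)
      exact fin_ineq hm0 hF
    · intro p _
      exact div_nonneg (w2N_nonneg _ _ _) (by positivity)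
  have s3 : ∑ m ∈ S.filter (fun m => len m = 3), -G m ≤ L3N x := by
    unfold L3N
    rw [sum_sigma', sum_sigma']
    refine sum_cover (fun m => (⟨⟨m.primeFactorsList.getD 0 0, m.primeFactorsList.getD 1 0⟩,
      m.primeFactorsList.getD 2 0⟩ : Σ _ : (Σ _ : ℕ, ℕ), ℕ)) ?_ ?_ ?_ ?_
    · intro m hm
      obtain ⟨h1, h2⟩ := mem_filter.1 hm
      obtain ⟨a, b, c, ha⟩ := List.length_eq_three.1 h2
      have hpa := hpr m h1 a (by rw [ha]; simp)
      have hpb := hpr m h1 b (by rw [ha]; simp)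
      have hpc := hpr m h1 c (by rw [ha]; simp)
      have hl := hlt m h1
      have hp := hprod m h1
      rw [ha] at hl hp
      have hab : (a < b ∧ a < c) ∧ b < c := by simpa using hl
      have hup := (hlg m h1).up
      rw [← hp] at hup
      simp only [List.prod_cons, List.prod_nil, mul_one] at hup
      have h0 : b * c ≠ 0 := by
        have := Nat.mul_pos hpb.2.2 hpc.2.2
        omega
      rw [ex_mul x (by omega) h0, ex_mul x (by omega) (by omega)] at hup
      simp only [ha, List.getD_cons_zero, List.getD_cons_succ, mem_sigma, mem_filter]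
      exact ⟨⟨hpa.1, hpb.1, hab.1.1⟩, hpc.1, hab.2, by linarith⟩
    · intro m hm m' hm' h
      obtain ⟨h1, h2⟩ := mem_filter.1 (mem_coe.1 hm)
      obtain ⟨h1', h2'⟩ := mem_filter.1 (mem_coe.1 hm')
      obtain ⟨a, b, c, ha⟩ := List.length_eq_three.1 h2
      obtain ⟨a', b', c', ha'⟩ := List.length_eq_three.1 h2'
      apply hinj m h1 m' h1'
      simp only [ha, ha', List.getD_cons_zero, List.getD_cons_succ, Sigma.mk.injEq,
        heq_eq_eq] at h
      rw [ha, ha', h.1.1, h.1.2, h.2]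
    · intro m hm
      obtain ⟨h1, h2⟩ := mem_filter.1 hm
      obtain ⟨a, b, c, ha⟩ := List.length_eq_three.1 h2
      have hlog := hlg m h1
      have hpa := hpr m h1 a (by rw [ha]; simp)
      have hpb := hpr m h1 b (by rw [ha]; simp)
      have hpc := hpr m h1 c (by rw [ha]; simp)
      have hp := hprod m h1
      rw [ha] at hp
      simp only [List.prod_cons, List.prod_nil, mul_one] at hp
      have hm0 : (0 : ℝ) < m := by exact_mod_cast (hok m h1).pos
      have hs0 := hlog.sum0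
      have hs1 := hlog.sum1
      have hexm : ex x m = ex x a + (ex x b + ex x c) := by
        have h0 : b * c ≠ 0 := by
          have := Nat.mul_pos hpb.2.2 hpc.2.2
          omega
        rw [← hp, ex_mul x (by omega) h0, ex_mul x (by omega) (by omega)]
      have hmR : ((a : ℝ) * b * c) = m := by
        rw [mul_assoc]
        exact_mod_cast hp
      rw [hGF m h1, ha]
      simp only [List.map_cons, List.map_nil, List.getD_cons_zero, List.getD_cons_succ]
      rw [hmR]
      have hF := F4N_ge (kap x) (ex x (n / m)) (ex x a) (ex x b) (ex x c) hκ0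
        (by linarith) (by linarith)
      exact fin_ineq hm0 hF
    · intro p _
      exact div_nonneg (w3N_nonneg _ _ _ _) (by positivity)
  have s4 : ∑ m ∈ S.filter (fun m => len m = 4), -G m ≤ 4 * L4N x := by
    unfold L4N
    rw [sum_sigma', sum_sigma', sum_sigma', mul_sum]
    refine sum_cover (fun m => (⟨⟨⟨m.primeFactorsList.getD 0 0, m.primeFactorsList.getD 1 0⟩,
      m.primeFactorsList.getD 2 0⟩, m.primeFactorsList.getD 3 0⟩ :
      Σ _ : (Σ _ : (Σ _ : ℕ, ℕ), ℕ), ℕ)) ?_ ?_ ?_ ?_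
    · intro m hm
      obtain ⟨h1, h2⟩ := mem_filter.1 hm
      obtain ⟨a, b, c, d, ha⟩ := len_four h2
      have hpa := hpr m h1 a (by rw [ha]; simp)
      have hpb := hpr m h1 b (by rw [ha]; simp)
      have hpc := hpr m h1 c (by rw [ha]; simp)
      have hpd := hpr m h1 d (by rw [ha]; simp)
      have hl := hlt m h1
      have hp := hprod m h1
      rw [ha] at hl hp
      have hab : (a < b ∧ a < c ∧ a < d) ∧ (b < c ∧ b < d) ∧ c < d := by simpa using hl
      have hup := (hlg m h1).up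
      rw [← hp] at hup
      simp only [List.prod_cons, List.prod_nil, mul_one] at hup
      have h0 : c * d ≠ 0 := by
        have := Nat.mul_pos hpc.2.2 hpd.2.2
        omega
      have h0' : b * (c * d) ≠ 0 := by
        have := Nat.mul_pos hpb.2.2 (Nat.pos_of_ne_zero h0)
        omega
      rw [ex_mul x (by omega) h0', ex_mul x (by omega) h0, ex_mul x (by omega) (by omega)] at hup
      simp only [ha, List.getD_cons_zero, List.getD_cons_succ, mem_sigma, mem_filter]
      exact ⟨⟨⟨hpa.1, hpb.1, hab.1.1⟩, hpc.1, hab.2.1.1⟩, hpd.1, hab.2.2, by linarith⟩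
    · intro m hm m' hm' h
      obtain ⟨h1, h2⟩ := mem_filter.1 (mem_coe.1 hm)
      obtain ⟨h1', h2'⟩ := mem_filter.1 (mem_coe.1 hm')
      obtain ⟨a, b, c, d, ha⟩ := len_four h2
      obtain ⟨a', b', c', d', ha'⟩ := len_four h2'
      apply hinj m h1 m' h1'
      simp only [ha, ha', List.getD_cons_zero, List.getD_cons_succ, Sigma.mk.injEq,
        heq_eq_eq] at h
      rw [ha, ha', h.1.1.1, h.1.1.2, h.1.2, h.2]
    · intro m hm
      obtain ⟨h1, h2⟩ := mem_filter.1 hm
      obtain ⟨a, b, c, d, ha⟩ := len_four h2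
      have hlog := hlg m h1
      have hpa := hpr m h1 a (by rw [ha]; simp)
      have hpb := hpr m h1 b (by rw [ha]; simp)
      have hpc := hpr m h1 c (by rw [ha]; simp)
      have hpd := hpr m h1 d (by rw [ha]; simp)
      have hp := hprod m h1
      rw [ha] at hp
      simp only [List.prod_cons, List.prod_nil, mul_one] at hp
      have hm0 : (0 : ℝ) < m := by exact_mod_cast (hok m h1).pos
      have hmR : ((a : ℝ) * b * c * d) = m := by
        rw [mul_assoc, mul_assoc]
        exact_mod_cast hp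
      rw [hGF m h1, ha]
      simp only [List.map_cons, List.map_nil, List.getD_cons_zero, List.getD_cons_succ]
      rw [hmR]
      have hF := F5N_ge (kap x) (ex x (n / m)) (ex x a) (ex x b) (ex x c) (ex x d)
      have h14 := fin_ineq hm0 hF
      rw [div_eq_mul_one_div (4 : ℝ) (m : ℝ)] at h14
      exact h14
    · intro p _
      positivity
  rw [sum_neg_distrib] at s1 s2 s3 s4
  rw [hKK, hfib]
  simp only [sum_range_succ, range_zero, sum_empty, zero_add]
  linarith

end Pool.Agent.HN
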