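import Pool.Agent.Work.MP_92f640_nt.HN.W.Defs
import Pool.Agent.Work.MP_92f640_nt.HS.W.Wt

/-! # Module W.Wt: `Wt`, `WtE` (copy of HS/W/Wt) -/

namespace Pool.Agent.HN

open Finset Pool.Agent.HS

theorem gN_abs (κ : ℝ) (j : ℕ) (s : ℝ) : |gN κ j s| ≤ 1 := by
  unfold gN
  split_ifs <;> norm_num

theorem gN_le (κ : ℝ) (hκ : 0 ≤ κ) (j : ℕ) (s : ℝ) (h : gN κ j s ≠ 0) : j = 0 ∨ s ≤ 6 / 11 := by
  by_contra hc
  push Not at hc
  apply h
  unfold gN
  rw [if_neg hc.1]
  have h1 := hc.2
  split_ifs with h2 h3 h4 h5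
  · rcases h3 with h3 | h3
    · linarith
    · linarith [h3.2]
  · rfl
  · linarith [h5.2]
  · rfl
  · rfl

theorem cwN_wt : ∃ x₁ : ℕ, ∀ x : ℕ, x₁ ≤ x →
    Wt (zx (9 / 11) x) ⌈(x : ℝ) ^ (6 / 11 : ℝ)⌉₊ (cwN x) := by
  refine ⟨3, fun x hx => ⟨?_, ?_, ?_⟩⟩
  · intro d hd
    by_contra hc
    apply hd
    unfold cwN
    exact if_neg hc
  · intro d hd
    have hR : Rough (zx (9 / 11) x) d := by
      by_contra hc
      apply hd
      unfold cwN
      rw [if_neg hc]
    unfold cwN at hd
    rw [if_pos hR] at hd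
    have hx1 : (1 : ℝ) ≤ x := by exact_mod_cast (by omega : 1 ≤ x)
    have hx0 : (0 : ℝ) < x := by linarith
    have hlx : 0 < Real.log x := Real.log_pos (by exact_mod_cast (by omega : 1 < x))
    have hd0 : d ≠ 0 := hR.1.ne_zero
    have hdpos : (0 : ℝ) < d := by exact_mod_cast Nat.pos_of_ne_zero hd0
    have key : (d : ℝ) ≤ (x : ℝ) ^ (6 / 11 : ℝ) := by
      rcases gN_le _ kap_nonneg _ _ hd with h | h
      · rw [card_eq_zero, Nat.primeFactors_eq_empty] at h
        rcases h with h | h
        · exact absurd h hd0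
        · rw [h, Nat.cast_one]
          exact Real.one_le_rpow hx1 (by norm_num)
      · unfold ex at h
        rw [div_le_iff₀ hlx] at h
        rw [← Real.log_le_log_iff hdpos (by positivity), Real.log_rpow hx0]
        linarith
    exact_mod_cast key.trans (Nat.le_ceil _)
  · intro d
    unfold cwN
    split_ifs
    · exact gN_abs _ _ _
    · norm_num

theorem gN_tv (κ : ℝ) (h0 : 0 ≤ κ) (h1 : κ ≤ 1 / 100) (j : ℕ) (s : ℕ → ℝ)
    (hs : ∀ t, s t ≤ s (t + 1)) (N : ℕ) :
    ∑ t ∈ range N, |gN κ (j + 1) (s (t + 1)) - gN κ (j + 1) (s t)| ≤ 3 := by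
  rcases j with _ | _ | j
  · refine tv_three s hs (fun a => 5 / 11 < a) (fun a => 1 / 2 - κ < a) (fun a => 6 / 11 < a)
      (fun a b h h' => lt_of_lt_of_le h' h) (fun a b h h' => lt_of_lt_of_le h' h)
      (fun a b h h' => lt_of_lt_of_le h' h) (-1) 1 (-1) 1 (by norm_num) (by norm_num)
      (by norm_num) (gN κ (0 + 1)) ?_ N
    intro a
    unfold gN
    rw [if_neg (by norm_num), if_pos (by norm_num)]
    by_cases a1 : 5 / 11 < a
    · by_cases a2 : 1 / 2 - κ < a
      · by_cases a3 : 6 / 11 < a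
        · rw [if_neg (by rintro (h | h) <;> [linarith; linarith [h.2]]), if_pos a1, if_pos a2,
            if_pos a3]
          norm_num
        · rw [if_pos (Or.inr ⟨a2, not_lt.1 a3⟩), if_pos a1, if_pos a2, if_neg a3]
          norm_num
      · have a3 : ¬ 6 / 11 < a := by
          intro h
          exact a2 (by linarith)
        rw [if_neg (by rintro (h | h) <;> [linarith; exact a2 h.1]), if_pos a1, if_neg a2,
          if_neg a3]
        norm_num
    · have a2 : ¬ 1 / 2 - κ < a := by
        intro h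
        exact a1 (by linarith)
      have a3 : ¬ 6 / 11 < a := by
        intro h
        exact a1 (by linarith)
      rw [if_pos (Or.inl (not_lt.1 a1)), if_neg a1, if_neg a2, if_neg a3]
      norm_num
  · refine tv_three s hs (fun a => 1 / 2 < a) (fun a => 6 / 11 - 2 * κ < a)
      (fun a => 6 / 11 - 2 * κ < a)
      (fun a b h h' => lt_of_lt_of_le h' h) (fun a b h h' => lt_of_lt_of_le h' h)
      (fun a b h h' => lt_of_lt_of_le h' h) 0 1 (-1) 0 (by norm_num) (by norm_num)
      (by norm_num) (gN κ (0 + 1 + 1)) ?_ N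
    intro a
    unfold gN
    rw [if_neg (by norm_num), if_neg (by norm_num), if_pos (by norm_num)]
    by_cases a2 : 1 / 2 < a
    · by_cases a3 : 6 / 11 - 2 * κ < a
      · rw [if_neg (by rintro h; linarith [h.2]), if_pos a2, if_pos a3]
        norm_num
      · rw [if_pos ⟨a2, not_lt.1 a3⟩, if_pos a2, if_neg a3]
        norm_num
    · have a3 : ¬ 6 / 11 - 2 * κ < a := by
        intro h
        exact a2 (by linarith)
      rw [if_neg (by rintro h; exact a2 h.1), if_neg a2, if_neg a3]
      norm_num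
  · have : ∀ a, gN κ (j + 1 + 1 + 1) a = 0 := by
      intro a
      unfold gN
      rw [if_neg (by omega), if_neg (by omega), if_neg (by omega)]
    simp only [this, sub_self, abs_zero, sum_const_zero]
    norm_num

theorem cwN_wte : ∃ x₁ : ℕ, ∀ x : ℕ, x₁ ≤ x → WtE (zx (9 / 11) x) 4 (cwN x) (EwN x) := by
  refine ⟨4 ^ 100, fun x hx => ⟨?_, ?_, ?_⟩⟩
  · intro d t
    unfold EwN
    split_ifs
    · exact gN_abs _ _ _
    · norm_num
  · intro d p hd hr hp hz hpd
    have hcop : Nat.Coprime d p := ((Nat.Prime.coprime_iff_not_dvd hp).2 hpd).symm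
    have hR : Rough (zx (9 / 11) x) d := ⟨hd, hr⟩
    have hR' : Rough (zx (9 / 11) x) (d * p) := by
      refine ⟨(Nat.squarefree_mul hcop).2 ⟨hd, hp.squarefree⟩, fun p' hp' h' => ?_⟩
      rcases (Nat.Prime.dvd_mul hp').1 h' with h1 | h1
      · exact hr p' hp' h1
      · rw [(Nat.prime_dvd_prime_iff_eq hp' hp).1 h1]
        exact hz
    have hcard : (d * p).primeFactors.card = d.primeFactors.card + 1 := by
      rw [hcop.primeFactors_mul, hp.primeFactors, card_union_of_disjoint, card_singleton]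
      rw [disjoint_singleton_right]
      exact fun h => hpd (Nat.dvd_of_mem_primeFactors h)
    unfold EwN cwN
    rw [if_pos hR, if_pos hR', hcard]
  · intro d N
    unfold EwN
    by_cases hR : Rough (zx (9 / 11) x) d
    · simp only [if_pos hR]
      have := gN_tv (kap x) kap_nonneg (kap_le hx) d.primeFactors.card (fun t => ex x (d * t))
        (ex_mono x d) N
      linarith
    · simp only [if_neg hR, sub_self, abs_zero, sum_const_zero]
      norm_num

end Pool.Agent.HN
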